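import Mathlib

/-!
Multisets of size `j` from a finite set of naturals, their counting functions
and the weighted inequalities between them.
-/

namespace Pool.Agent.V7H13.ET

open Finset

/-- The finite set of multisets of size `j` with elements in `A`. -/
def Ms (A : Finset ℕ) (j : ℕ) : Finset (Multiset ℕ) :=
  (A.sym j).map ⟨fun k : Sym ℕ j => (k : Multiset ℕ), Sym.coe_injective⟩

lemma mem_Ms {A : Finset ℕ} {j : ℕ} {m : Multiset ℕ} :
    m ∈ Ms A j ↔ Multiset.card m = j ∧ ∀ a ∈ m, a ∈ A := by
  unfold Ms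
  constructor
  · intro h
    rw [Finset.mem_map] at h
    obtain ⟨k, hk, rfl⟩ := h
    refine ⟨k.2, fun a ha => ?_⟩
    exact (Finset.mem_sym_iff.1 hk) a ha
  · rintro ⟨hc, hA⟩
    rw [Finset.mem_map]
    refine ⟨Sym.mk m hc, ?_, rfl⟩
    exact Finset.mem_sym_iff.2 (fun a ha => hA a ha)

/-- The number of multisets of size `j` from `A` with sum `n`. -/
def cnt (A : Finset ℕ) (j n : ℕ) : ℕ := ((Ms A j).filter (fun m => m.sum = n)).card

/-- The number of multisets of size `j` from `A` with sum `n` without repeated elements. -/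
def dcnt (A : Finset ℕ) (j n : ℕ) : ℕ :=
  (((Ms A j).filter (fun m => m.sum = n)).filter (fun m => m.Nodup)).card

/-- The number of multisets of size `j` from `A` with sum `n` with a repeated element. -/
def ecnt (A : Finset ℕ) (j n : ℕ) : ℕ :=
  (((Ms A j).filter (fun m => m.sum = n)).filter (fun m => ¬ m.Nodup)).card

/-- The number of ordered representations of `n` as a sum of `j` elements of `A`. -/
noncomputable def RR (A : Finset ℕ) (j n : ℕ) : ℕ :=
  ∑ m ∈ (Ms A j).filter (fun m => m.sum = n), m.countPerms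

lemma dcnt_add_ecnt (A : Finset ℕ) (j n : ℕ) : dcnt A j n + ecnt A j n = cnt A j n := by
  unfold dcnt ecnt cnt
  exact Finset.card_filter_add_card_filter_not _

lemma prod_fact_mul_countPerms (m : Multiset ℕ) :
    (∏ i ∈ m.toFinset, (m.count i).factorial) * m.countPerms = (Multiset.card m).factorial := by
  have h := Nat.multinomial_spec m.toFinset (fun i => m.count i)
  have h2 : m.countPerms = Nat.multinomial m.toFinset (fun i => m.count i) := by
    unfold Multiset.countPerms
    rw [← Finsupp.multinomial_of_support_subset (s := m.toFinset)]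
    · rfl
    · simp
  rw [h2, h, Multiset.toFinset_sum_count_eq]

lemma countPerms_le (m : Multiset ℕ) : m.countPerms ≤ (Multiset.card m).factorial := by
  have h := prod_fact_mul_countPerms m
  have h1 : 1 ≤ ∏ i ∈ m.toFinset, (m.count i).factorial :=
    Finset.one_le_prod' (fun i _ => Nat.factorial_pos _)
  calc m.countPerms = 1 * m.countPerms := (one_mul _).symm
    _ ≤ (∏ i ∈ m.toFinset, (m.count i).factorial) * m.countPerms := Nat.mul_le_mul_right _ h1
    _ = _ := h

lemma countPerms_pos (m : Multiset ℕ) : 1 ≤ m.countPerms := by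
  have h := prod_fact_mul_countPerms m
  rcases Nat.eq_zero_or_pos m.countPerms with h0 | h0
  · rw [h0, mul_zero] at h
    exact absurd h.symm (Nat.factorial_ne_zero _)
  · exact h0

lemma countPerms_nodup {m : Multiset ℕ} (hm : m.Nodup) :
    m.countPerms = (Multiset.card m).factorial := by
  have h := prod_fact_mul_countPerms m
  have h1 : ∏ i ∈ m.toFinset, (m.count i).factorial = 1 := by
    apply Finset.prod_eq_one
    intro i hi
    have : m.count i ≤ 1 := Multiset.nodup_iff_count_le_one.1 hm i
    interval_cases (m.count i) <;> rfl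
  rw [h1, one_mul] at h
  exact h

lemma prod_map_pow_sum {R : Type*} [CommSemiring R] (z : R) (m : Multiset ℕ) :
    (m.map (fun a => z ^ a)).prod = z ^ m.sum := by
  induction m using Multiset.induction_on with
  | empty => simp
  | cons a m ih => simp [ih, pow_add]

lemma sum_pow_Ms {R : Type*} [CommSemiring R] (z : R) (A : Finset ℕ) (j : ℕ) :
    (∑ a ∈ A, z ^ a) ^ j = ∑ m ∈ Ms A j, (m.countPerms : R) * z ^ m.sum := by
  rw [Finset.sum_pow]
  unfold Ms
  rw [Finset.sum_map]
  refine Finset.sum_congr rfl (fun k _ => ?_)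
  rw [prod_map_pow_sum]
  rfl

lemma sum_lt {A : Finset ℕ} {T h M j : ℕ} (hA : ∀ a ∈ A, a < T) (hM : h * T < M) (hj : j ≤ h)
    {m : Multiset ℕ} (hm : m ∈ Ms A j) : m.sum < M := by
  rw [mem_Ms] at hm
  have h1 : m.sum ≤ Multiset.card m • T := Multiset.sum_le_card_nsmul m T
    (fun a ha => (hA a (hm.2 a ha)).le)
  rw [hm.1, smul_eq_mul] at h1
  have h2 : j * T ≤ h * T := Nat.mul_le_mul_right _ hj
  omega

/-- Sorting a sum over multisets by the sum of the multiset. -/
lemma sum_Ms_fiber {A : Finset ℕ} {j M : ℕ} (hM : ∀ m ∈ Ms A j, m.sum < M)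
    {R : Type*} [CommSemiring R] (f : Multiset ℕ → R) :
    ∑ m ∈ Ms A j, f m = ∑ n ∈ range M, ∑ m ∈ (Ms A j).filter (fun m => m.sum = n), f m := by
  rw [Finset.sum_fiberwise_of_maps_to]
  intro m hm
  exact Finset.mem_range.2 (hM m hm)

lemma sum_pow_RR {A : Finset ℕ} {j M : ℕ} (hM : ∀ m ∈ Ms A j, m.sum < M)
    {R : Type*} [CommSemiring R] (z : R) :
    (∑ a ∈ A, z ^ a) ^ j = ∑ n ∈ range M, (RR A j n : R) * z ^ n := by
  rw [sum_pow_Ms, sum_Ms_fiber hM]
  refine Finset.sum_congr rfl (fun n _ => ?_)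
  unfold RR
  push_cast
  rw [Finset.sum_mul]
  refine Finset.sum_congr rfl (fun m hm => ?_)
  rw [(Finset.mem_filter.1 hm).2]

lemma RR_le (A : Finset ℕ) (j n : ℕ) : RR A j n ≤ j.factorial * cnt A j n := by
  unfold RR cnt
  calc ∑ m ∈ (Ms A j).filter (fun m => m.sum = n), m.countPerms
      ≤ ∑ m ∈ (Ms A j).filter (fun m => m.sum = n), j.factorial := by
        refine Finset.sum_le_sum (fun m hm => ?_)
        have h1 := (mem_Ms.1 (Finset.mem_filter.1 hm).1).1
        rw [← h1]
        exact countPerms_le m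
    _ = _ := by rw [Finset.sum_const, smul_eq_mul, mul_comm]

lemma le_RR (A : Finset ℕ) (j n : ℕ) : j.factorial * dcnt A j n ≤ RR A j n := by
  unfold RR dcnt
  calc j.factorial * (((Ms A j).filter (fun m => m.sum = n)).filter (fun m => m.Nodup)).card
      = ∑ m ∈ ((Ms A j).filter (fun m => m.sum = n)).filter (fun m => m.Nodup),
          m.countPerms := by
        rw [Finset.sum_congr rfl (g := fun _ => j.factorial)]
        · rw [Finset.sum_const, smul_eq_mul, mul_comm]
        · intro m hm
          have h1 := (Finset.mem_filter.1 hm)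
          have h2 := (mem_Ms.1 (Finset.mem_filter.1 h1.1).1).1
          rw [countPerms_nodup h1.2, h2]
    _ ≤ _ := Finset.sum_le_sum_of_subset (Finset.filter_subset _ _)

lemma cnt_le_RR (A : Finset ℕ) (j n : ℕ) : cnt A j n ≤ RR A j n := by
  unfold RR cnt
  rw [Finset.card_eq_sum_ones]
  exact Finset.sum_le_sum (fun m _ => countPerms_pos m)

lemma cnt_mono_index {A : Finset ℕ} {a : ℕ} (ha : a ∈ A) (j n : ℕ) :
    cnt A j n ≤ cnt A (j + 1) (n + a) := by
  unfold cnt
  refine Finset.card_le_card_of_injOn (fun m => a ::ₘ m) ?_ ?_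
  · intro m hm
    have h1 := Finset.mem_filter.1 (Finset.mem_coe.1 hm)
    have h2 := mem_Ms.1 h1.1
    rw [Finset.mem_coe, Finset.mem_filter, mem_Ms]
    refine ⟨⟨by simp [h2.1], ?_⟩, by simp [h1.2, add_comm]⟩
    intro b hb
    rcases Multiset.mem_cons.1 hb with rfl | hb
    · exact ha
    · exact h2.2 b hb
  · intro m _ m' _ hmm
    exact (Multiset.cons_inj_right a).1 hmm

lemma cnt_zero (A : Finset ℕ) (n : ℕ) : cnt A 0 n = if n = 0 then 1 else 0 := by
  unfold cnt
  have h : Ms A 0 = {0} := by
    ext m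
    rw [mem_Ms, Finset.mem_singleton, Multiset.card_eq_zero]
    constructor
    · rintro ⟨h1, _⟩
      exact h1
    · rintro rfl
      exact ⟨rfl, by simp⟩
  rw [h, Finset.filter_singleton]
  split_ifs with h1 h2 h2
  · simp
  · exact absurd h1.symm h2
  · exact absurd h2.symm h1
  · simp

end Pool.Agent.V7H13.ET
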