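import Pool.Agent.V7H13.ET.Spectral

/-!
The variance inequality for a finite set with bounded representation function.
-/

namespace Pool.Agent.V7H13.ET

open Finset

lemma geo_le {x : ℝ} (hx0 : 0 ≤ x) (hx1 : x < 1) (M : ℕ) :
    ∑ n ∈ range M, x ^ n ≤ 1 / (1 - x) := by
  rw [le_div_iff₀ (by linarith)]
  have := mul_neg_geom_sum x M
  have h2 : 0 ≤ x ^ M := by positivity
  nlinarith

lemma That_le {A : Finset ℕ} {j M B : ℕ} (hB : ∀ n, cnt A j n ≤ B) {x : ℝ} (hx0 : 0 ≤ x) :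
    That A j x M ≤ B * ∑ n ∈ range M, (cnt A j n : ℝ) * x ^ n := by
  unfold That
  rw [Finset.mul_sum]
  refine Finset.sum_le_sum (fun n _ => ?_)
  have h1 : (cnt A j n : ℝ) ≤ B := by exact_mod_cast hB n
  have h2 : 0 ≤ x ^ n := pow_nonneg hx0 _
  have h3 : (0 : ℝ) ≤ cnt A j n := by positivity
  have h4 : (cnt A j n : ℝ) ^ 2 ≤ B * cnt A j n := by nlinarith
  calc (cnt A j n : ℝ) ^ 2 * x ^ n ≤ (B * cnt A j n) * x ^ n := mul_le_mul_of_nonneg_right h4 h2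
    _ = _ := by ring

lemma sum_cnt_le_geo {A : Finset ℕ} {j M B : ℕ} (hB : ∀ n, cnt A j n ≤ B) {x : ℝ}
    (hx0 : 0 ≤ x) (hx1 : x < 1) :
    ∑ n ∈ range M, (cnt A j n : ℝ) * x ^ n ≤ B * (1 / (1 - x)) := by
  calc ∑ n ∈ range M, (cnt A j n : ℝ) * x ^ n ≤ ∑ n ∈ range M, (B : ℝ) * x ^ n := by
        refine Finset.sum_le_sum (fun n _ => ?_)
        have h1 : (cnt A j n : ℝ) ≤ B := by exact_mod_cast hB n
        exact mul_le_mul_of_nonneg_right h1 (pow_nonneg hx0 _)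
    _ = B * ∑ n ∈ range M, x ^ n := by rw [Finset.mul_sum]
    _ ≤ _ := mul_le_mul_of_nonneg_left (geo_le hx0 hx1 M) (by positivity)

set_option maxHeartbeats 1000000 in
/-- The final algebra of the core inequality. -/
lemma core_algebra {g : ℕ} {B : ℝ} {x S N T0 T1 T2 E0 E1 E2 Q m γ ε κ f0 f1 f2 δ : ℝ}
    (hB : 0 ≤ B) (hx1 : x < 1) (hN : N = 1 / (1 - x)) (hS1 : 1 ≤ S)
    (hf0 : 1 ≤ f0) (hf1 : f1 = (g + 1) * f0) (hf2 : f2 = (g + 2) * f1)
    (hm : m = (1 - x) * S ^ (g + 2))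
    (hγ : 0 < γ) (hε : ε = γ ^ (g + 2))
    (hT0 : 0 ≤ T0) (hE0 : 0 ≤ E0) (hE0T : E0 ≤ f0 ^ 2 * T0) (hST : S * T0 ≤ (g + 1) * T1)
    (hT1 : T1 ≤ B * S ^ (g + 1)) (hT1l : S ^ (g + 1) ≤ f1 * T1)
    (hE1 : f1 ^ 2 * (T1 - 2 * B * S ^ g) ≤ E1)
    (hE2 : E2 ≤ f2 ^ 2 * T2) (hT2 : T2 ≤ B * (B * N))
    (hm2 : S ^ (g + 2) ≤ f2 * (B * N))
    (hQ0 : 0 ≤ Q) (hQ : Q ^ 2 ≤ (E2 - (1 - x) * (S ^ (g + 2)) ^ 2) * E0)
    (hmain : E1 ≤ Q + m * (1 / (2 * ε) * (1 + E0) + (γ / S) / 2 * (1 / (1 - x)) +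
          1 / (2 * (γ / S)) * ((γ / S) ^ 2 * E2 + 4 * ε * (1 / (γ / S)) ^ g)))
    (hκ : κ = γ * (5 / 2 + (f2 * B) ^ 2 / 2 + 2 * (f2 * B)))
    (hκ1 : κ < 1) (hκ2 : 2 * κ * B ≤ δ)
    (hS2 : f2 * B * (1 + f0 ^ 2 * (g + 1) * B) / (2 * ε) ≤ γ * S)
    (hS3 : 2 * B * f1 ≤ γ * S) :
    (m / f2) ^ 2 + (g + 1) / (g + 2) * (m / f2) - δ ≤ (1 - x) * T2 := by
  have hS0 : 0 < S := by linarith
  have hg0 : (0 : ℝ) ≤ g := by positivity
  have hf1p : 1 ≤ f1 := by rw [hf1]; nlinarith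
  have hf2p : 1 ≤ f2 := by rw [hf2]; nlinarith
  have hx0 : 0 < 1 - x := by linarith
  have hNp : 0 < N := by rw [hN]; positivity
  have hxN : (1 - x) * N = 1 := by rw [hN]; field_simp
  have hεp : 0 < ε := by rw [hε]; positivity
  have hmN : m * N = S ^ (g + 2) := by
    rw [hm]
    calc (1 - x) * S ^ (g + 2) * N = ((1 - x) * N) * S ^ (g + 2) := by ring
      _ = _ := by rw [hxN, one_mul]
  have hSg : 0 < S ^ g := by positivity
  have hSg1 : 0 < S ^ (g + 1) := by positivity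
  have hSg2 : 0 < S ^ (g + 2) := by positivity
  have hmp : 0 < m := by rw [hm]; positivity
  have hmC : m ≤ f2 * B := by
    have h1 := mul_le_mul_of_nonneg_left hm2 hx0.le
    rw [← hm] at h1
    calc m ≤ (1 - x) * (f2 * (B * N)) := h1
      _ = ((1 - x) * N) * (f2 * B) := by ring
      _ = _ := by rw [hxN, one_mul]
  have hE0C : E0 ≤ (f0 ^ 2 * (g + 1) * B) * S ^ g := by
    have h1 : S * E0 ≤ S * ((f0 ^ 2 * (g + 1) * B) * S ^ g) := by
      calc S * E0 ≤ S * (f0 ^ 2 * T0) := mul_le_mul_of_nonneg_left hE0T hS0.le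
        _ = f0 ^ 2 * (S * T0) := by ring
        _ ≤ f0 ^ 2 * ((g + 1) * T1) := mul_le_mul_of_nonneg_left hST (by positivity)
        _ ≤ f0 ^ 2 * ((g + 1) * (B * S ^ (g + 1))) := by gcongr
        _ = _ := by ring
    exact le_of_mul_le_mul_left h1 hS0
  -- the four error terms
  have e1 : m * (1 / (2 * ε) * (1 + E0)) ≤ γ * S ^ (g + 1) := by
    have h1 : 1 + E0 ≤ (1 + f0 ^ 2 * (g + 1) * B) * S ^ g := by
      have h0 : 1 ≤ S ^ g := one_le_pow₀ hS1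
      rw [add_mul, one_mul]
      exact add_le_add h0 hE0C
    calc m * (1 / (2 * ε) * (1 + E0))
        ≤ (f2 * B) * (1 / (2 * ε) * ((1 + f0 ^ 2 * (g + 1) * B) * S ^ g)) := by gcongr
      _ = (f2 * B * (1 + f0 ^ 2 * (g + 1) * B) / (2 * ε)) * S ^ g := by
          field_simp
      _ ≤ (γ * S) * S ^ g := mul_le_mul_of_nonneg_right hS2 hSg.le
      _ = _ := by ring
  have e2 : m * ((γ / S) / 2 * (1 / (1 - x))) = γ / 2 * S ^ (g + 1) := by
    rw [← hN]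
    calc m * ((γ / S) / 2 * N) = (m * N) * (γ / S) / 2 := by ring
      _ = γ / 2 * S ^ (g + 1) := by
          rw [hmN, pow_succ S (g + 1)]
          field_simp
  have e3 : m * (1 / (2 * (γ / S)) * ((γ / S) ^ 2 * E2)) ≤
      γ * ((f2 * B) ^ 2 / 2) * S ^ (g + 1) := by
    have h1 : E2 ≤ f2 ^ 2 * (B * (B * N)) := hE2.trans (by gcongr)
    have h2 : m * (1 / (2 * (γ / S)) * ((γ / S) ^ 2 * E2)) = (γ / (2 * S)) * (m * E2) := by
      field_simp
    rw [h2]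
    calc (γ / (2 * S)) * (m * E2) ≤ (γ / (2 * S)) * (m * (f2 ^ 2 * (B * (B * N)))) := by gcongr
      _ = (γ / (2 * S)) * ((f2 * B) ^ 2 * (m * N)) := by ring
      _ = _ := by
          rw [hmN, pow_succ S (g + 1)]
          field_simp
  have e4 : m * (1 / (2 * (γ / S)) * (4 * ε * (1 / (γ / S)) ^ g)) ≤
      γ * (2 * (f2 * B)) * S ^ (g + 1) := by
    have h1 : m * (1 / (2 * (γ / S)) * (4 * ε * (1 / (γ / S)) ^ g)) =
        m * (2 * γ) * S ^ (g + 1) := by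
      rw [hε, one_div_div, div_pow]
      field_simp
      ring
    rw [h1]
    calc m * (2 * γ) * S ^ (g + 1) ≤ (f2 * B) * (2 * γ) * S ^ (g + 1) := by gcongr
      _ = _ := by ring
  have hErr : m * (1 / (2 * ε) * (1 + E0) + (γ / S) / 2 * (1 / (1 - x)) +
          1 / (2 * (γ / S)) * ((γ / S) ^ 2 * E2 + 4 * ε * (1 / (γ / S)) ^ g)) ≤
      (κ - γ) * S ^ (g + 1) := by
    have hk : (κ - γ) * S ^ (g + 1) = γ * S ^ (g + 1) + γ / 2 * S ^ (g + 1) +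
        γ * ((f2 * B) ^ 2 / 2) * S ^ (g + 1) + γ * (2 * (f2 * B)) * S ^ (g + 1) := by
      rw [hκ]
      ring
    rw [hk, mul_add, mul_add, mul_add (1 / (2 * (γ / S))), mul_add m]
    linarith
  have hκγ : 0 ≤ κ - γ := by
    rw [hκ]
    have : 0 ≤ γ * (3 / 2 + (f2 * B) ^ 2 / 2 + 2 * (f2 * B)) := by positivity
    linarith
  have hT1p : 0 < T1 := by
    by_contra hcon
    push Not at hcon
    have : f1 * T1 ≤ 0 := mul_nonpos_of_nonneg_of_nonpos (by linarith) hcon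
    linarith
  have hQl : f1 ^ 2 * T1 * (1 - κ) ≤ Q := by
    have h1 : 2 * B * S ^ g ≤ γ * T1 := by
      have h2 : S * (2 * B * S ^ g) ≤ S * (γ * T1) := by
        calc S * (2 * B * S ^ g) = 2 * B * S ^ (g + 1) := by ring
          _ ≤ 2 * B * (f1 * T1) := mul_le_mul_of_nonneg_left hT1l (by positivity)
          _ = (2 * B * f1) * T1 := by ring
          _ ≤ (γ * S) * T1 := mul_le_mul_of_nonneg_right hS3 hT1p.le
          _ = _ := by ring
      exact le_of_mul_le_mul_left h2 hS0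
    have h3 : (κ - γ) * S ^ (g + 1) ≤ (κ - γ) * (f1 ^ 2 * T1) := by
      refine mul_le_mul_of_nonneg_left (hT1l.trans ?_) hκγ
      refine mul_le_mul_of_nonneg_right ?_ hT1p.le
      exact le_self_pow₀ hf1p two_ne_zero
    have h4 : f1 ^ 2 * (T1 - γ * T1) ≤ f1 ^ 2 * (T1 - 2 * B * S ^ g) :=
      mul_le_mul_of_nonneg_left (by linarith) (by positivity)
    linarith only [h4, h3, hE1, hmain, hErr]
  -- squaring
  set V : ℝ := E2 - (1 - x) * (S ^ (g + 2)) ^ 2 with hV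
  have hsq : (f1 ^ 2 * T1 * (1 - κ)) ^ 2 ≤ V * E0 := by
    refine le_trans ?_ hQ
    have : 0 ≤ f1 ^ 2 * T1 * (1 - κ) :=
      mul_nonneg (mul_nonneg (by positivity) hT1p.le) (by linarith)
    exact pow_le_pow_left₀ this hQl 2
  have hVb : (g + 1) * f1 * S ^ (g + 2) * (1 - κ) ^ 2 ≤ V := by
    have hpos : 0 < f1 ^ 2 * T1 * (1 - κ) :=
      mul_pos (mul_pos (by positivity) hT1p) (by linarith)
    have hVE : 0 < V * E0 := lt_of_lt_of_le (by positivity) hsq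
    have hE0p : 0 < E0 := by
      rcases eq_or_lt_of_le hE0 with h5 | h5
      · rw [← h5] at hVE
        simp at hVE
      · exact h5
    have hVp : 0 < V := by
      by_contra hcon
      push Not at hcon
      have : V * E0 ≤ 0 := mul_nonpos_of_nonpos_of_nonneg hcon hE0p.le
      linarith
    have h2 : E0 * S ≤ f0 ^ 2 * ((g + 1) * T1) := by
      calc E0 * S ≤ (f0 ^ 2 * T0) * S := mul_le_mul_of_nonneg_right hE0T hS0.le
        _ = f0 ^ 2 * (S * T0) := by ring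
        _ ≤ _ := mul_le_mul_of_nonneg_left hST (by positivity)
    have h3 : (f1 ^ 2 * T1 * (1 - κ)) ^ 2 * S ≤ V * (f0 ^ 2 * ((g + 1) * T1)) := by
      calc (f1 ^ 2 * T1 * (1 - κ)) ^ 2 * S ≤ (V * E0) * S :=
            mul_le_mul_of_nonneg_right hsq hS0.le
        _ = V * (E0 * S) := by ring
        _ ≤ _ := mul_le_mul_of_nonneg_left h2 hVp.le
    have hc : 0 < f0 ^ 2 * (g + 1) * T1 := by positivity
    have h4 : (f0 ^ 2 * (g + 1) * T1) * ((g + 1) * f1 * S ^ (g + 2) * (1 - κ) ^ 2) ≤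
        (f0 ^ 2 * (g + 1) * T1) * V := by
      calc (f0 ^ 2 * (g + 1) * T1) * ((g + 1) * f1 * S ^ (g + 2) * (1 - κ) ^ 2)
          = (f0 ^ 2 * (g + 1) ^ 2 * T1 * f1 * (1 - κ) ^ 2 * S) * S ^ (g + 1) := by ring
        _ ≤ (f0 ^ 2 * (g + 1) ^ 2 * T1 * f1 * (1 - κ) ^ 2 * S) * (f1 * T1) := by
            refine mul_le_mul_of_nonneg_left hT1l ?_
            positivity
        _ = (f1 ^ 2 * T1 * (1 - κ)) ^ 2 * S := by
            rw [hf1]
            ring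
        _ ≤ V * (f0 ^ 2 * ((g + 1) * T1)) := h3
        _ = _ := by ring
    exact le_of_mul_le_mul_left h4 hc
  -- conclusion
  have hcc : (0 : ℝ) ≤ (g + 1) / (g + 2) := by positivity
  have hcc1 : ((g : ℝ) + 1) / (g + 2) ≤ 1 := by
    rw [div_le_one (by positivity)]
    linarith
  have hf2pos : 0 < f2 := by linarith
  have hmf : m / f2 ≤ B := by
    rw [div_le_iff₀ hf2pos]
    linarith
  have hmf0 : 0 ≤ m / f2 := by positivity
  have h1 : (g + 1) * f1 * S ^ (g + 2) * (1 - κ) ^ 2 + (1 - x) * (S ^ (g + 2)) ^ 2 ≤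
      f2 ^ 2 * T2 := by
    have : V + (1 - x) * (S ^ (g + 2)) ^ 2 = E2 := by rw [hV]; ring
    linarith
  have h2 := mul_le_mul_of_nonneg_left h1 hx0.le
  have h3 : (1 - x) * ((g + 1) * f1 * S ^ (g + 2) * (1 - κ) ^ 2 +
      (1 - x) * (S ^ (g + 2)) ^ 2) = (g + 1) * f1 * m * (1 - κ) ^ 2 + m ^ 2 := by
    rw [hm]
    ring
  rw [h3] at h2
  have h4 : (g + 1) * f1 * m * (1 - κ) ^ 2 + m ^ 2 =
      f2 ^ 2 * ((m / f2) ^ 2 + (g + 1) / (g + 2) * (m / f2) * (1 - κ) ^ 2) := by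
    have hg2 : (g : ℝ) + 2 ≠ 0 := by positivity
    have hf1ne : f1 ≠ 0 := by linarith
    rw [hf2]
    field_simp
    ring
  rw [h4] at h2
  have h5 : f2 ^ 2 * ((m / f2) ^ 2 + (g + 1) / (g + 2) * (m / f2) * (1 - κ) ^ 2) ≤
      f2 ^ 2 * ((1 - x) * T2) := by
    calc _ ≤ (1 - x) * (f2 ^ 2 * T2) := h2
      _ = _ := by ring
  have h6 := le_of_mul_le_mul_left h5 (by positivity)
  have h7 : (g + 1) / (g + 2) * (m / f2) ≤ B := by
    calc (g + 1) / (g + 2) * (m / f2) ≤ 1 * B := mul_le_mul hcc1 hmf hmf0 (by norm_num)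
      _ = B := one_mul B
  have h8 : 0 ≤ (g + 1) / (g + 2) * (m / f2) := mul_nonneg hcc hmf0
  have h9 : (g + 1) / (g + 2) * (m / f2) * (1 - 2 * κ) ≤
      (g + 1) / (g + 2) * (m / f2) * (1 - κ) ^ 2 := by
    refine mul_le_mul_of_nonneg_left ?_ h8
    calc 1 - 2 * κ ≤ 1 - 2 * κ + κ ^ 2 := le_add_of_nonneg_right (sq_nonneg κ)
      _ = (1 - κ) ^ 2 := by ring
  have hκ0 : 0 ≤ κ := by linarith
  have h10 : (g + 1) / (g + 2) * (m / f2) * (2 * κ) ≤ δ := by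
    calc (g + 1) / (g + 2) * (m / f2) * (2 * κ) ≤ B * (2 * κ) :=
          mul_le_mul_of_nonneg_right h7 (by linarith)
      _ = 2 * κ * B := by ring
      _ ≤ δ := hκ2
  linarith only [h6, h9, h10]

end Pool.Agent.V7H13.ET
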