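import Pool.Agent.V7H13.ET.Core

/-!
The variance inequality for a finite set with bounded representation function.
-/

namespace Pool.Agent.V7H13.ET

open Finset

lemma That_congr {A : Finset ℕ} {j M M' : ℕ} (hM : ∀ m ∈ Ms A j, m.sum < M) (h : M ≤ M')
    (x : ℝ) : That A j x M' = That A j x M := by
  rw [That_eq hM, That_eq (fun m hm => (hM m hm).trans_le h)]

theorem core (g B : ℕ) {δ : ℝ} (hδ : 0 < δ) : ∃ S0 : ℝ, 1 ≤ S0 ∧
    ∀ (A : Finset ℕ) (T M : ℕ), (∀ a ∈ A, a < T) → (g + 2) * T < M →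
    (∀ n, cnt A (g + 2) n ≤ B) → ∀ x : ℝ, 1 / 16 ≤ x → x < 1 → S0 ≤ ∑ a ∈ A, x ^ a →
    (((1 - x) * (∑ a ∈ A, x ^ a) ^ (g + 2)) / ((g + 2).factorial : ℝ)) ^ 2 +
      ((g : ℝ) + 1) / (g + 2) *
        (((1 - x) * (∑ a ∈ A, x ^ a) ^ (g + 2)) / ((g + 2).factorial : ℝ)) - δ ≤
      (1 - x) * That A (g + 2) x M := by
  set f0 : ℝ := (g.factorial : ℝ) with hf0
  set f1 : ℝ := ((g + 1).factorial : ℝ) with hf1
  set f2 : ℝ := ((g + 2).factorial : ℝ) with hf2
  have hf1e : f1 = (g + 1) * f0 := by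
    rw [hf1, hf0, Nat.factorial_succ]
    push_cast
    ring
  have hf2e : f2 = (g + 2) * f1 := by
    rw [hf2, hf1, Nat.factorial_succ (g + 1)]
    push_cast
    ring
  have hf0p : 1 ≤ f0 := by
    rw [hf0]
    exact_mod_cast Nat.factorial_pos g
  have hf2p : 0 < f2 := by
    rw [hf2]
    exact_mod_cast Nat.factorial_pos (g + 2)
  have hf1p : 0 < f1 := by
    rw [hf1]
    exact_mod_cast Nat.factorial_pos (g + 1)
  have hB0 : (0 : ℝ) ≤ B := Nat.cast_nonneg B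
  set K : ℝ := 5 / 2 + (f2 * B) ^ 2 / 2 + 2 * (f2 * B) with hK
  have hKp : 0 < K := by positivity
  obtain ⟨γ, hγ, hγ1, hγ2, hγ3⟩ : ∃ γ : ℝ, 0 < γ ∧ γ ≤ 1 / 2 ∧ γ * K < 1 ∧
      2 * (γ * K) * B ≤ δ := by
    refine ⟨min (1 / 2) (min (1 / (2 * K)) (δ / (2 * K * (B + 1)))), ?_, min_le_left _ _, ?_, ?_⟩
    · refine lt_min (by norm_num) (lt_min (by positivity) (by positivity))
    · have h1 : min (1 / 2) (min (1 / (2 * K)) (δ / (2 * K * (B + 1)))) ≤ 1 / (2 * K) :=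
        (min_le_right _ _).trans (min_le_left _ _)
      calc _ ≤ 1 / (2 * K) * K := mul_le_mul_of_nonneg_right h1 hKp.le
        _ = 1 / 2 := by field_simp
        _ < 1 := by norm_num
    · have h1 : min (1 / 2) (min (1 / (2 * K)) (δ / (2 * K * (B + 1)))) ≤
          δ / (2 * K * (B + 1)) := (min_le_right _ _).trans (min_le_right _ _)
      calc _ ≤ 2 * (δ / (2 * K * (B + 1)) * K) * B := by gcongr
        _ = δ * (B / (B + 1)) := by field_simp
        _ ≤ δ * 1 := by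
            refine mul_le_mul_of_nonneg_left ?_ hδ.le
            rw [div_le_one (by positivity)]
            linarith
        _ = δ := mul_one δ
  set ε : ℝ := γ ^ (g + 2) with hε
  have hεp : 0 < ε := by positivity
  have hε1 : ε ≤ 1 / 2 := by
    calc ε ≤ γ ^ 1 := pow_le_pow_of_le_one hγ.le (by linarith) (by omega)
      _ = γ := pow_one γ
      _ ≤ 1 / 2 := hγ1
  refine ⟨max 1 (max (f2 * B * (1 + f0 ^ 2 * (g + 1) * B) / (2 * ε) / γ) (2 * B * f1 / γ)),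
    le_max_left _ _, ?_⟩
  intro A T M hA hM hB x hx hx1 hS
  set S : ℝ := ∑ a ∈ A, x ^ a with hSdef
  have hS1 : 1 ≤ S := (le_max_left _ _).trans hS
  have hS2 : f2 * B * (1 + f0 ^ 2 * (g + 1) * B) / (2 * ε) ≤ γ * S := by
    have := ((le_max_left _ _).trans (le_max_right _ _)).trans hS
    rw [div_le_iff₀ hγ] at this
    linarith
  have hS3 : 2 * B * f1 ≤ γ * S := by
    have := ((le_max_right _ _).trans (le_max_right _ _)).trans hS
    rw [div_le_iff₀ hγ] at this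
    linarith
  have hx0 : 0 < x := by linarith
  have hS0 : 0 < S := by linarith
  -- enlarge `M`
  obtain ⟨M', hMM', hεM'⟩ : ∃ M' : ℕ, M ≤ M' ∧ 1 ≤ ε * M' := by
    refine ⟨max M ⌈1 / ε⌉₊, le_max_left _ _, ?_⟩
    have h1 : 1 / ε ≤ (⌈1 / ε⌉₊ : ℝ) := Nat.le_ceil _
    have h2 : (⌈1 / ε⌉₊ : ℝ) ≤ ((max M ⌈1 / ε⌉₊ : ℕ) : ℝ) := by exact_mod_cast le_max_right _ _
    have h3 := h1.trans h2
    rw [div_le_iff₀ hεp] at h3
    linarith
  have hbd : ∀ j ≤ g + 2, ∀ m ∈ Ms A j, m.sum < M := fun j hj m hm => sum_lt hA hM hj hm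
  have hbd' : ∀ j ≤ g + 2, ∀ m ∈ Ms A j, m.sum < M' := fun j hj m hm =>
    (hbd j hj m hm).trans_le hMM'
  have hM'0 : M' ≠ 0 := by omega
  rw [← That_congr (hbd (g + 2) le_rfl) hMM' x]
  -- the square root of x
  have hsq : Real.sqrt x ^ 2 = x := Real.sq_sqrt hx0.le
  have hρ : 1 / 4 ≤ Real.sqrt x := by
    rw [show (1 : ℝ) / 4 = Real.sqrt (1 / 16) by
      rw [show (1 : ℝ) / 16 = (1 / 4) ^ 2 by norm_num, Real.sqrt_sq (by norm_num)]]
    exact Real.sqrt_le_sqrt hx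
  have hρ1 : Real.sqrt x < 1 := by
    rw [Real.sqrt_lt' one_pos]
    simpa using hx1
  obtain ⟨Q, hQ0, hQ, hmain⟩ := spectral (A := A) (g := g) hM'0 hbd' hρ hρ1
    (β := γ / S) (lam := γ / S) (ε := ε) (by positivity) (by positivity) hεp hε1 hεM'
  rw [hsq] at hQ hmain
  rw [← hSdef] at hQ hmain
  -- a fixed element
  obtain ⟨a0, ha0⟩ : A.Nonempty := by
    rw [Finset.nonempty_iff_ne_empty]
    rintro rfl
    rw [hSdef, Finset.sum_empty] at hS1
    linarith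
  have hB1 : ∀ n, cnt A (g + 1) n ≤ B := fun n =>
    (cnt_mono_index ha0 (g + 1) n).trans (hB _)
  refine core_algebra (g := g) (B := (B : ℝ)) (x := x) (S := S) (N := 1 / (1 - x))
    (T0 := That A g x M') (T1 := That A (g + 1) x M') (T2 := That A (g + 2) x M')
    (E0 := EE A g x M') (E1 := EE A (g + 1) x M') (E2 := EE A (g + 2) x M')
    (Q := Q) (m := (1 - x) * S ^ (g + 2)) (γ := γ) (ε := ε) (κ := γ * K)
    (f0 := f0) (f1 := f1) (f2 := f2) hB0 hx1 rfl hS1 hf0p hf1e hf2e rfl hγ hε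
    (That_nonneg A g hx0.le M') (EE_nonneg A g hx0.le M') (EE_le_That A g hx0.le M')
    ?_ ?_ ?_ ?_ (EE_le_That A (g + 2) hx0.le M') ?_ ?_ hQ0 hQ hmain rfl hγ2 hγ3 hS2 hS3
  · have := S_mul_That_le (A := A) (j := g) (hbd' g (by omega)) (hbd' (g + 1) (by omega)) hx0.le
    push_cast at this
    exact this
  · refine (That_le hB1 hx0.le).trans ?_
    refine mul_le_mul_of_nonneg_left ?_ hB0
    rw [sum_cnt_eq (hbd' (g + 1) (by omega))]
    exact sum_Ms_le_pow A (g + 1) hx0.le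
  · exact pow_le_That hA (hM.trans_le hMM') hx0.le (g + 1) (by omega)
  · exact le_EE (hbd' (g + 1) (by omega)) hx0.le hx1.le hB1
  · refine (That_le hB hx0.le).trans ?_
    exact mul_le_mul_of_nonneg_left (sum_cnt_le_geo hB hx0.le hx1) hB0
  · refine (le_sum_cnt (hbd' (g + 2) le_rfl) hx0.le).trans ?_
    exact mul_le_mul_of_nonneg_left (sum_cnt_le_geo hB hx0.le hx1) hf2p.le

end Pool.Agent.V7H13.ET
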