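import Pool.Agent.V7H13.ET.Infinite

/-!
Consequences of the variance inequality: Abel means as infinite series, and lower densities.
-/

namespace Pool.Agent.V7H13.ET

open Finset Filter Topology

/-- Abel mean of the `k`-th power of the representation function. -/
noncomputable def abelMean (A : Set ℕ) (h k : ℕ) (x : ℝ) : ℝ :=
  (1 - x) * ∑' n : ℕ, (rep A h n : ℝ) ^ k * x ^ n

lemma summable_rep {A : Set ℕ} {h B : ℕ} (hB : ∀ n, rep A h n ≤ B) (k : ℕ) {x : ℝ}
    (hx0 : 0 ≤ x) (hx1 : x < 1) : Summable (fun n : ℕ => (rep A h n : ℝ) ^ k * x ^ n) := by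
  refine Summable.of_nonneg_of_le (fun n => mul_nonneg (by positivity) (pow_nonneg hx0 _))
    (fun n => ?_) ((summable_geometric_of_lt_one hx0 hx1).mul_left ((B : ℝ) ^ k))
  refine mul_le_mul_of_nonneg_right ?_ (pow_nonneg hx0 _)
  have : (rep A h n : ℝ) ≤ B := by exact_mod_cast hB n
  exact pow_le_pow_left₀ (Nat.cast_nonneg _) this k

lemma tendsto_abel {A : Set ℕ} {h B : ℕ} (hB : ∀ n, rep A h n ≤ B) (k : ℕ) {x : ℝ}
    (hx0 : 0 ≤ x) (hx1 : x < 1) :
    Tendsto (fun T : ℕ => (1 - x) * ∑ n ∈ range T, (rep A h n : ℝ) ^ k * x ^ n) atTop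
      (𝓝 (abelMean A h k x)) :=
  ((summable_rep hB k hx0 hx1).hasSum.tendsto_sum_nat).const_mul _

/-- The variance inequality for Abel means. -/
theorem var_mean {g B : ℕ} {A : Set ℕ} (hA : A.Infinite) (hB : ∀ n, rep A (g + 2) n ≤ B)
    {δ : ℝ} (hδ : 0 < δ) :
    ∀ᶠ x in 𝓝[<] (1 : ℝ), (abelMean A (g + 2) 1 x) ^ 2 +
      ((g : ℝ) + 1) / (g + 2) * abelMean A (g + 2) 1 x - δ ≤ abelMean A (g + 2) 2 x := by
  obtain ⟨x0, hx01, hx016, hmain⟩ := var_abel hA hB hδ
  filter_upwards [Ioo_mem_nhdsLT hx01] with x hx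
  obtain ⟨T0, hT0⟩ := hmain x hx.1 hx.2
  have hxp : 0 ≤ x := by linarith [hx.1]
  have t1 := tendsto_abel hB 1 hxp hx.2
  have t2 := tendsto_abel hB 2 hxp hx.2
  have t3 : Tendsto (fun T : ℕ => ((1 - x) * ∑ n ∈ range T, (rep A (g + 2) n : ℝ) ^ 1 * x ^ n) ^ 2 +
        ((g : ℝ) + 1) / (g + 2) *
          ((1 - x) * ∑ n ∈ range T, (rep A (g + 2) n : ℝ) ^ 1 * x ^ n) - δ) atTop
      (𝓝 ((abelMean A (g + 2) 1 x) ^ 2 +
      ((g : ℝ) + 1) / (g + 2) * abelMean A (g + 2) 1 x - δ)) :=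
    ((t1.pow 2).add (t1.const_mul _)).sub_const δ
  refine le_of_tendsto_of_tendsto t3 t2 ?_
  filter_upwards [eventually_ge_atTop T0] with T hT
  have := hT0 T hT
  simpa using this

lemma sqrt_cond {L K : ℕ} {c : ℝ} (hc0 : 0 ≤ c) (hc1 : c ≤ 1) (hL : 1 ≤ L) (hLK : L ≤ K)
    (h : Real.sqrt K - Real.sqrt L < Real.sqrt c) :
    0 < (L : ℝ) * K - ((L : ℝ) + K - c) ^ 2 / 4 := by
  have hLr : (1 : ℝ) ≤ L := by exact_mod_cast hL
  have hKr : (L : ℝ) ≤ K := by exact_mod_cast hLK
  have sL : Real.sqrt L ^ 2 = L := Real.sq_sqrt (by linarith)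
  have sK : Real.sqrt K ^ 2 = K := Real.sq_sqrt (by linarith)
  have sc : Real.sqrt c ^ 2 = c := Real.sq_sqrt hc0
  have hL0 : 0 ≤ Real.sqrt L := Real.sqrt_nonneg _
  have hK0 : 0 ≤ Real.sqrt K := Real.sqrt_nonneg _
  have hsc0 : 0 ≤ Real.sqrt c := Real.sqrt_nonneg _
  have hLK' : Real.sqrt L ≤ Real.sqrt K := Real.sqrt_le_sqrt hKr
  -- (√K - √L)² < c
  have h1 : (Real.sqrt K - Real.sqrt L) ^ 2 < c := by
    rw [← sc]
    exact pow_lt_pow_left₀ h (by linarith) two_ne_zero
  have h2 : (L : ℝ) + K - c < 2 * (Real.sqrt L * Real.sqrt K) := by nlinarith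
  have h3 : 0 ≤ (L : ℝ) + K - c := by linarith
  have h4 : ((L : ℝ) + K - c) ^ 2 < (2 * (Real.sqrt L * Real.sqrt K)) ^ 2 :=
    pow_lt_pow_left₀ h2 h3 two_ne_zero
  have h5 : (2 * (Real.sqrt L * Real.sqrt K)) ^ 2 = 4 * ((L : ℝ) * K) := by
    calc (2 * (Real.sqrt L * Real.sqrt K)) ^ 2 = 4 * (Real.sqrt L ^ 2 * Real.sqrt K ^ 2) := by ring
      _ = _ := by rw [sL, sK]
  linarith

/-- The exceptional set of the range `[L,K]`. -/
def exc (A : Set ℕ) (h L K : ℕ) : Set ℕ := {n | rep A h n < L ∨ K < rep A h n}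

open Classical in
/-- Number of elements of `U` below `N`. -/
noncomputable def cntBelow (U : Set ℕ) (N : ℕ) : ℕ := ((range N).filter (fun n => n ∈ U)).card

lemma rep_zero_of_finite {A : Set ℕ} (hA : A.Finite) (h : ℕ) :
    ∃ N0 : ℕ, ∀ n ≥ N0, rep A h n = 0 := by
  obtain ⟨T, hT⟩ := hA.bddAbove
  refine ⟨h * T + 1, fun n hn => ?_⟩
  unfold rep
  have : {s : Multiset ℕ | Multiset.card s = h ∧ (∀ a ∈ s, a ∈ A) ∧ s.sum = n} = ∅ := by
    rw [Set.eq_empty_iff_forall_notMem]
    rintro s ⟨h1, h2, h3⟩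
    have h4 : s.sum ≤ Multiset.card s • T := Multiset.sum_le_card_nsmul s T
      (fun a ha => hT (h2 a ha))
    rw [h1, smul_eq_mul] at h4
    omega
  rw [this, Set.ncard_empty]

open Classical in
lemma cntBelow_ge_of_eventually {U : Set ℕ} {N0 : ℕ} (hU : ∀ n ≥ N0, n ∈ U) (N : ℕ) :
    (N : ℝ) - N0 ≤ cntBelow U N := by
  have h1 : Finset.Ico N0 N ⊆ (range N).filter (fun n => n ∈ U) := by
    intro n hn
    rw [Finset.mem_Ico] at hn
    rw [Finset.mem_filter, Finset.mem_range]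
    exact ⟨hn.2, hU n hn.1⟩
  have h2 := Finset.card_le_card h1
  rw [Nat.card_Ico] at h2
  have h3 : N ≤ cntBelow U N + N0 := by
    unfold cntBelow
    omega
  have h4 : (N : ℝ) ≤ cntBelow U N + N0 := by exact_mod_cast h3
  linarith

open Classical in
lemma cntBelow_le_add {U V : Set ℕ} {N0 : ℕ} (h : ∀ n ∈ U, n < N0 ∨ n ∈ V) (N : ℕ) :
    cntBelow U N ≤ cntBelow V N + N0 := by
  unfold cntBelow
  calc ((range N).filter (fun n => n ∈ U)).card
      ≤ (((range N).filter (fun n => n ∈ V)) ∪ range N0).card := by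
        refine Finset.card_le_card ?_
        intro n hn
        rw [Finset.mem_filter, Finset.mem_range] at hn
        rw [Finset.mem_union, Finset.mem_filter, Finset.mem_range, Finset.mem_range]
        rcases h n hn.2 with h1 | h1
        · exact Or.inr h1
        · exact Or.inl ⟨hn.1, h1⟩
    _ ≤ _ := by
        refine (Finset.card_union_le _ _).trans ?_
        rw [Finset.card_range]

open Classical in
lemma cntBelow_le_card {U : Set ℕ} (hfin : U.Finite) (N : ℕ) :
    cntBelow U N ≤ hfin.toFinset.card := by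
  unfold cntBelow
  refine Finset.card_le_card ?_
  intro n hn
  rw [Finset.mem_filter] at hn
  exact hfin.mem_toFinset.2 hn.2

/-- From Abel means to lower density. -/
lemma lower_density_of_abel {U : Set ℕ} {η : ℝ} (hη0 : 0 < η) (hη1 : η ≤ 1) {x0 : ℝ}
    (hx0 : 0 ≤ x0) (hx01 : x0 < 1)
    (hU : ∀ x : ℝ, x0 < x → x < 1 → ∃ T0 : ℕ, ∀ T ≥ T0,
      η ≤ (1 - x) * ∑ n ∈ range T, (U.indicator (fun _ => (1 : ℝ)) n) * x ^ n) :
    ∀ᶠ N : ℕ in atTop, η / (2 * Real.log (2 / η)) * N ≤ cntBelow U N := by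
  have hκ : 0 < Real.log (2 / η) := by
    apply Real.log_pos
    rw [lt_div_iff₀ hη0]
    linarith
  set κ := Real.log (2 / η) with hκdef
  have hexp : Real.exp (-κ) = η / 2 := by
    rw [hκdef, Real.exp_neg, Real.exp_log (by positivity), inv_div]
  obtain ⟨N1, hN1⟩ := exists_nat_gt (κ / (1 - x0))
  filter_upwards [eventually_ge_atTop (max N1 (max ⌈κ⌉₊ 1))] with N hN
  have hNN1 : N1 ≤ N := (le_max_left _ _).trans hN
  have hNκ : κ ≤ N := (Nat.le_ceil κ).trans (by
    exact_mod_cast ((le_max_left _ _).trans (le_max_right _ _)).trans hN)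
  have hN1' : 1 ≤ N := ((le_max_right _ _).trans (le_max_right _ _)).trans hN
  have hNp : (0 : ℝ) < N := by exact_mod_cast hN1'
  set x : ℝ := 1 - κ / N with hx
  have hxx0 : x0 < x := by
    have h1 : κ / (1 - x0) < N := hN1.trans_le (by exact_mod_cast hNN1)
    rw [div_lt_iff₀ (by linarith)] at h1
    have h2 : κ / N < 1 - x0 := by
      rw [div_lt_iff₀ hNp]
      linarith
    linarith
  have hx1 : x < 1 := by
    have : 0 < κ / N := by positivity
    linarith
  have hxp : 0 ≤ x := by linarith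
  obtain ⟨T0, hT0⟩ := hU x hxx0 hx1
  have h1 := hT0 (max T0 N) (le_max_left _ _)
  have hNT : N ≤ max T0 N := le_max_right _ _
  set T := max T0 N with hT
  rw [← Finset.sum_range_add_sum_Ico _ hNT, mul_add] at h1
  have h2 : ∑ n ∈ range N, (U.indicator (fun _ => (1 : ℝ)) n) * x ^ n ≤ cntBelow U N := by
    unfold cntBelow
    rw [Finset.card_filter]
    push_cast
    refine Finset.sum_le_sum (fun n _ => ?_)
    by_cases hn : n ∈ U
    · rw [Set.indicator_of_mem hn, if_pos hn, one_mul]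
      exact pow_le_one₀ hxp hx1.le
    · rw [Set.indicator_of_notMem hn, if_neg hn, zero_mul]
  have h3 : (1 - x) * ∑ n ∈ Finset.Ico N T, (U.indicator (fun _ => (1 : ℝ)) n) * x ^ n ≤ η / 2 := by
    calc (1 - x) * ∑ n ∈ Finset.Ico N T, (U.indicator (fun _ => (1 : ℝ)) n) * x ^ n
        ≤ (1 - x) * ∑ n ∈ Finset.Ico N T, x ^ n := by
          refine mul_le_mul_of_nonneg_left ?_ (by linarith)
          refine Finset.sum_le_sum (fun n _ => ?_)
          have h0 : 0 ≤ x ^ n := pow_nonneg hxp _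
          by_cases hn : n ∈ U
          · rw [Set.indicator_of_mem hn, one_mul]
          · rw [Set.indicator_of_notMem hn, zero_mul]
            exact h0
      _ ≤ x ^ N := tail_le hxp hx1 hNT
      _ ≤ Real.exp (-κ) := by
          rw [hx]
          exact Real.one_sub_div_pow_le_exp_neg hNκ
      _ = η / 2 := hexp
  have h4 : η / 2 ≤ (1 - x) * cntBelow U N := by
    have := mul_le_mul_of_nonneg_left h2 (show 0 ≤ 1 - x by linarith)
    linarith
  have h5 : 1 - x = κ / N := by rw [hx]; ring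
  rw [h5] at h4
  have h6 : η / 2 * N ≤ κ * cntBelow U N := by
    calc η / 2 * N ≤ (κ / N * cntBelow U N) * N := mul_le_mul_of_nonneg_right h4 hNp.le
      _ = κ * cntBelow U N := by field_simp
  calc η / (2 * κ) * N = (η / 2 * N) / κ := by
        field_simp
    _ ≤ (κ * cntBelow U N) / κ := by gcongr
    _ = cntBelow U N := by field_simp

/-- The lower density statement. -/
theorem lower_density (g : ℕ) {L K : ℕ} (hL : 1 ≤ L) (hLK : L ≤ K)
    (hs : Real.sqrt K - Real.sqrt L < Real.sqrt (((g : ℝ) + 1) / (g + 2))) (B : ℕ) :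
    ∃ η : ℝ, 0 < η ∧ ∀ A : Set ℕ, (∀ n, rep A (g + 2) n ≤ B) →
      ∀ᶠ N : ℕ in atTop, η * N ≤ cntBelow (exc A (g + 2) L K) N := by
  set c : ℝ := ((g : ℝ) + 1) / (g + 2) with hc
  have hc0 : 0 ≤ c := by positivity
  have hc1 : c ≤ 1 := by
    rw [hc, div_le_one (by positivity)]
    linarith
  have hδ1 := sqrt_cond hc0 hc1 hL hLK hs
  set δ1 : ℝ := (L : ℝ) * K - ((L : ℝ) + K - c) ^ 2 / 4 with hδ1def
  set C : ℝ := ((B : ℝ) + K) ^ 2 + 1 with hC
  have hCp : 0 < C := by positivity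
  set η0 : ℝ := min 1 (δ1 / 2 / C) with hη0
  have hη0p : 0 < η0 := lt_min one_pos (by positivity)
  have hη01 : η0 ≤ 1 := min_le_left _ _
  have hκ : 0 < Real.log (2 / η0) := by
    apply Real.log_pos
    rw [lt_div_iff₀ hη0p]
    linarith
  refine ⟨min (1 / 2) (η0 / (2 * Real.log (2 / η0))), lt_min (by norm_num) (by positivity), ?_⟩
  intro A hB
  by_cases hA : A.Infinite
  · obtain ⟨x0, hx01, hx016, hmain⟩ := var_abel hA hB (δ := δ1 / 4) (by linarith)
    have hx00 : 0 ≤ x0 := by linarith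
    have hden := lower_density_of_abel (U := exc A (g + 2) L K) hη0p hη01 hx00 hx01 ?_
    · filter_upwards [hden] with N hN
      refine le_trans ?_ hN
      exact mul_le_mul_of_nonneg_right (min_le_right _ _) (Nat.cast_nonneg _)
    · intro x hxx0 hx1
      have hxp : 0 < x := by linarith
      obtain ⟨T0, hT0⟩ := hmain x hxx0 hx1
      obtain ⟨T1, hT1⟩ : ∃ T1 : ℕ, ∀ T ≥ T1, ((L : ℝ) * K) * x ^ T ≤ δ1 / 4 := by
        have h1 : Tendsto (fun T : ℕ => ((L : ℝ) * K) * x ^ T) atTop (𝓝 (((L : ℝ) * K) * 0)) :=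
          (tendsto_pow_atTop_nhds_zero_of_lt_one hxp.le hx1).const_mul _
        rw [mul_zero] at h1
        have h2 := h1.eventually (Iic_mem_nhds (show (0 : ℝ) < δ1 / 4 by linarith))
        exact eventually_atTop.1 h2
      refine ⟨max T0 T1, fun T hT => ?_⟩
      have h1 := hT0 T ((le_max_left _ _).trans hT)
      have h2 := hT1 T ((le_max_right _ _).trans hT)
      set μ : ℝ := (1 - x) * ∑ n ∈ range T, (rep A (g + 2) n : ℝ) * x ^ n with hμ
      have h3 : (1 - x) * ∑ n ∈ range T,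
          (((rep A (g + 2) n : ℝ) - L) * ((rep A (g + 2) n : ℝ) - K)) * x ^ n =
          (1 - x) * ∑ n ∈ range T, (rep A (g + 2) n : ℝ) ^ 2 * x ^ n - (L + K) * μ +
            L * K * (1 - x ^ T) := by
        have e1 : (1 - x) * ∑ n ∈ range T, x ^ n = 1 - x ^ T := mul_neg_geom_sum x T
        rw [← e1, hμ]
        have e2 : ∑ n ∈ range T,
            (((rep A (g + 2) n : ℝ) - L) * ((rep A (g + 2) n : ℝ) - K)) * x ^ n =
            ∑ n ∈ range T, (rep A (g + 2) n : ℝ) ^ 2 * x ^ n -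
            (L + K) * ∑ n ∈ range T, (rep A (g + 2) n : ℝ) * x ^ n +
            L * K * ∑ n ∈ range T, x ^ n := by
          rw [Finset.mul_sum, Finset.mul_sum, ← Finset.sum_sub_distrib, ← Finset.sum_add_distrib]
          refine Finset.sum_congr rfl (fun n _ => ?_)
          ring
        rw [e2]
        ring
      have h4 : δ1 / 2 ≤ (1 - x) * ∑ n ∈ range T,
          (((rep A (g + 2) n : ℝ) - L) * ((rep A (g + 2) n : ℝ) - K)) * x ^ n := by
        rw [h3]
        have h5 : 0 ≤ (μ - ((L : ℝ) + K - c) / 2) ^ 2 := sq_nonneg _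
        nlinarith
      have h6 : (1 - x) * ∑ n ∈ range T,
          (((rep A (g + 2) n : ℝ) - L) * ((rep A (g + 2) n : ℝ) - K)) * x ^ n ≤
          C * ((1 - x) * ∑ n ∈ range T,
            ((exc A (g + 2) L K).indicator (fun _ => (1 : ℝ)) n) * x ^ n) := by
        have e1 : C * ((1 - x) * ∑ n ∈ range T,
            ((exc A (g + 2) L K).indicator (fun _ => (1 : ℝ)) n) * x ^ n) =
            (1 - x) * ∑ n ∈ range T,
            (C * (exc A (g + 2) L K).indicator (fun _ => (1 : ℝ)) n) * x ^ n := by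
          simp_rw [mul_assoc C]
          rw [← Finset.mul_sum]
          ring
        rw [e1]
        refine mul_le_mul_of_nonneg_left ?_ (by linarith)
        refine Finset.sum_le_sum (fun n _ => ?_)
        refine mul_le_mul_of_nonneg_right ?_ (pow_nonneg hxp.le _)
        have hr0 : (0 : ℝ) ≤ rep A (g + 2) n := Nat.cast_nonneg _
        have hrB : (rep A (g + 2) n : ℝ) ≤ B := by exact_mod_cast hB n
        have hL1 : (1 : ℝ) ≤ L := by exact_mod_cast hL
        have hLK1 : (L : ℝ) ≤ K := by exact_mod_cast hLK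
        by_cases hn : n ∈ exc A (g + 2) L K
        · rw [Set.indicator_of_mem hn, mul_one, hC]
          nlinarith
        · rw [Set.indicator_of_notMem hn, mul_zero]
          have hn' : ¬ (rep A (g + 2) n < L ∨ K < rep A (g + 2) n) := hn
          push Not at hn'
          have hn1 : (L : ℝ) ≤ rep A (g + 2) n := by exact_mod_cast hn'.1
          have hn2 : (rep A (g + 2) n : ℝ) ≤ K := by exact_mod_cast hn'.2
          exact mul_nonpos_of_nonneg_of_nonpos (by linarith) (by linarith)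
      have h7 := h4.trans h6
      refine (min_le_right _ _).trans ?_
      rw [div_le_iff₀ hCp]
      linarith
  · have hfin : A.Finite := Set.not_infinite.1 hA
    obtain ⟨N0, hN0⟩ := rep_zero_of_finite hfin (g + 2)
    have hU : ∀ n ≥ N0, n ∈ exc A (g + 2) L K := by
      intro n hn
      left
      rw [hN0 n hn]
      exact hL
    filter_upwards [eventually_ge_atTop (2 * N0)] with N hN
    have h1 := cntBelow_ge_of_eventually hU N
    have h2 : (2 : ℝ) * N0 ≤ N := by exact_mod_cast hN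
    calc min (1 / 2) (η0 / (2 * Real.log (2 / η0))) * (N : ℝ) ≤ 1 / 2 * N :=
          mul_le_mul_of_nonneg_right (min_le_left _ _) (Nat.cast_nonneg _)
      _ ≤ (N : ℝ) - N0 := by linarith
      _ ≤ _ := h1

end Pool.Agent.V7H13.ET
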