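import Mathlib

/-!
Discrete Parseval identity on a circle of radius `ρ`, and the geometric sum.
-/

namespace Pool.Agent.V7H13.ET

open Finset Complex

/-- The primitive `M`-th root of unity. -/
noncomputable def om (M : ℕ) : ℂ := Complex.exp (2 * Real.pi * Complex.I / M)

lemma om_prim {M : ℕ} (hM : M ≠ 0) : IsPrimitiveRoot (om M) M :=
  Complex.isPrimitiveRoot_exp M hM

lemma norm_om {M : ℕ} (hM : M ≠ 0) : ‖om M‖ = 1 := (om_prim hM).norm'_eq_one hM

lemma sum_root {M : ℕ} (hM : M ≠ 0) {n k : ℕ} (hn : n < M) (hk : k < M) :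
    ∑ t ∈ range M, (om M ^ t) ^ n * (starRingEnd ℂ) ((om M ^ t) ^ k) =
      if n = k then (M : ℂ) else 0 := by
  have hp := om_prim hM
  have hn1 := norm_om hM
  have hne : om M ≠ 0 := hp.ne_zero hM
  have hconj : (starRingEnd ℂ) (om M) = (om M)⁻¹ := by
    rw [Complex.inv_def, Complex.normSq_eq_norm_sq, hn1]
    simp
  have hterm : ∀ t : ℕ, (om M ^ t) ^ n * (starRingEnd ℂ) ((om M ^ t) ^ k) =
      (om M ^ n * ((om M)⁻¹) ^ k) ^ t := by
    intro t
    rw [map_pow, map_pow, hconj, mul_pow]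
    congr 1
    · rw [← pow_mul, ← pow_mul, mul_comm]
    · rw [← pow_mul, ← pow_mul, mul_comm]
  simp_rw [hterm]
  by_cases h : n = k
  · subst h
    have : om M ^ n * ((om M)⁻¹) ^ n = 1 := by
      rw [← mul_pow, mul_inv_cancel₀ hne, one_pow]
    rw [this]
    simp
  · rw [if_neg h]
    have hne1 : om M ^ n * ((om M)⁻¹) ^ k ≠ 1 := by
      intro hcon
      rw [inv_pow, mul_inv_eq_one₀ (pow_ne_zero _ hne)] at hcon
      exact h (hp.pow_inj hn hk hcon)
    have hM1 : (om M ^ n * ((om M)⁻¹) ^ k) ^ M = 1 := by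
      rw [mul_pow, ← pow_mul, mul_comm n M, pow_mul, hp.pow_eq_one, one_pow, one_mul,
        ← pow_mul, mul_comm k M, pow_mul, inv_pow, hp.pow_eq_one, inv_one, one_pow]
    rw [geom_sum_eq hne1, hM1]
    simp

/-- Parseval on the circle of radius `ρ`. -/
lemma parseval {M : ℕ} (hM : M ≠ 0) (c : ℕ → ℝ) (ρ : ℝ) :
    ∑ t ∈ range M, ‖∑ n ∈ range M, (c n : ℂ) * ((ρ : ℂ) * om M ^ t) ^ n‖ ^ 2 =
      M * ∑ n ∈ range M, (c n) ^ 2 * (ρ ^ 2) ^ n := by
  have h1 : ∀ t : ℕ, ((‖∑ n ∈ range M, (c n : ℂ) * ((ρ : ℂ) * om M ^ t) ^ n‖ ^ 2 : ℝ) : ℂ) =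
      ∑ n ∈ range M, ∑ k ∈ range M, ((c n * c k * ρ ^ n * ρ ^ k : ℝ) : ℂ) *
        ((om M ^ t) ^ n * (starRingEnd ℂ) ((om M ^ t) ^ k)) := by
    intro t
    rw [← Complex.normSq_eq_norm_sq, Complex.normSq_eq_conj_mul_self, map_sum, mul_comm,
      Finset.sum_mul_sum]
    refine Finset.sum_congr rfl (fun n _ => Finset.sum_congr rfl (fun k _ => ?_))
    simp only [map_mul, Complex.conj_ofReal, map_pow, mul_pow]
    push_cast
    ring
  have h2 : ((∑ t ∈ range M, ‖∑ n ∈ range M, (c n : ℂ) * ((ρ : ℂ) * om M ^ t) ^ n‖ ^ 2 : ℝ) : ℂ) =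
      ((M * ∑ n ∈ range M, (c n) ^ 2 * (ρ ^ 2) ^ n : ℝ) : ℂ) := by
    rw [Complex.ofReal_sum]
    simp_rw [h1]
    rw [Finset.sum_comm]
    have h3 : ∀ n ∈ range M, ∑ t ∈ range M, ∑ k ∈ range M,
        ((c n * c k * ρ ^ n * ρ ^ k : ℝ) : ℂ) *
        ((om M ^ t) ^ n * (starRingEnd ℂ) ((om M ^ t) ^ k)) =
        ((c n * c n * ρ ^ n * ρ ^ n : ℝ) : ℂ) * M := by
      intro n hn
      rw [Finset.sum_comm]
      rw [Finset.sum_eq_single n]
      · rw [← Finset.mul_sum, sum_root hM (Finset.mem_range.1 hn) (Finset.mem_range.1 hn),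
          if_pos rfl]
      · intro k hk hkn
        rw [← Finset.mul_sum, sum_root hM (Finset.mem_range.1 hn) (Finset.mem_range.1 hk),
          if_neg (Ne.symm hkn), mul_zero]
      · intro hcon
        exact absurd hn hcon
    rw [Finset.sum_congr rfl h3]
    push_cast
    rw [Finset.mul_sum]
    refine Finset.sum_congr rfl (fun n _ => ?_)
    ring
  exact_mod_cast h2

/-- The geometric sum is bounded by the inverse of the distance to `1`. -/
lemma geom_bound {z : ℂ} (hz : ‖z‖ ≤ 1) (M : ℕ) :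
    ‖1 - z‖ * ‖∑ n ∈ range M, z ^ n‖ ≤ 2 := by
  rw [← norm_mul, mul_neg_geom_sum]
  calc ‖1 - z ^ M‖ ≤ ‖(1 : ℂ)‖ + ‖z ^ M‖ := norm_sub_le _ _
    _ ≤ 1 + 1 := by
        rw [norm_one, norm_pow]
        gcongr
        exact pow_le_one₀ (norm_nonneg _) hz
    _ = 2 := by norm_num

lemma om_pow_re_im {M : ℕ} (t : ℕ) :
    om M ^ t = ((Real.cos (2 * (Real.pi * t / M)) : ℝ) : ℂ) +
      ((Real.sin (2 * (Real.pi * t / M)) : ℝ) : ℂ) * Complex.I := by
  unfold om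
  rw [← Complex.exp_nat_mul]
  have : (t : ℂ) * (2 * Real.pi * Complex.I / M) =
      ((2 * (Real.pi * t / M) : ℝ) : ℂ) * Complex.I := by
    push_cast
    ring
  rw [this, Complex.exp_mul_I, Complex.ofReal_cos, Complex.ofReal_sin]

/-- Away from `1` the distance is bounded below. -/
lemma minor_bound {M t : ℕ} (hM : M ≠ 0) {ρ ε : ℝ} (hρ : 1 / 4 ≤ ρ) (hε : 0 < ε)
    (h1 : ε * M ≤ t) (h2 : (t : ℝ) ≤ (1 - ε) * M) : 2 * ε ≤ ‖1 - (ρ : ℂ) * om M ^ t‖ := by
  have hM0 : (0 : ℝ) < M := by exact_mod_cast Nat.pos_of_ne_zero hM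
  set φ : ℝ := Real.pi * t / M with hφ
  have hpi := Real.pi_pos
  have hεt : ε ≤ t / M := by rw [le_div_iff₀ hM0]; exact h1
  have hεt2 : (t : ℝ) / M ≤ 1 - ε := by rw [div_le_iff₀ hM0]; exact h2
  have hε2 : ε ≤ 1 / 2 := by linarith
  have hφ1 : Real.pi * ε ≤ φ := by
    rw [hφ, mul_div_assoc]
    exact mul_le_mul_of_nonneg_left hεt hpi.le
  have hφ2 : φ ≤ Real.pi - Real.pi * ε := by
    rw [hφ, mul_div_assoc]
    have := mul_le_mul_of_nonneg_left hεt2 hpi.le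
    linarith
  have hsin : 2 * ε ≤ Real.sin φ := by
    have hs : 2 * ε ≤ Real.sin (Real.pi * ε) := by
      have := Real.mul_le_sin (x := Real.pi * ε) (by positivity) (by nlinarith)
      have h3 : 2 / Real.pi * (Real.pi * ε) = 2 * ε := by field_simp
      linarith
    rcases le_total φ (Real.pi / 2) with hle | hle
    · refine hs.trans (Real.sin_le_sin_of_le_of_le_pi_div_two ?_ hle hφ1)
      have : 0 ≤ Real.pi * ε := by positivity
      linarith
    · rw [← Real.sin_pi_sub φ]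
      refine hs.trans (Real.sin_le_sin_of_le_of_le_pi_div_two ?_ (by linarith) (by linarith))
      have : 0 ≤ Real.pi * ε := by positivity
      linarith
  have hnorm : ‖1 - (ρ : ℂ) * om M ^ t‖ ^ 2 = (1 - ρ) ^ 2 + 4 * ρ * Real.sin φ ^ 2 := by
    rw [om_pow_re_im, ← hφ, ← Complex.normSq_eq_norm_sq, Complex.normSq_apply]
    simp only [Complex.sub_re, Complex.one_re, Complex.mul_re, Complex.ofReal_re, Complex.add_re,
      Complex.I_re, mul_zero, Complex.ofReal_im, Complex.I_im, mul_one, sub_self, add_zero,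
      Complex.add_im, Complex.mul_im, zero_mul, sub_zero, Complex.sub_im, Complex.one_im, zero_sub,
      zero_add]
    have hc : Real.cos (2 * φ) = 1 - 2 * Real.sin φ ^ 2 := by
      rw [Real.cos_two_mul, ← Real.sin_sq_add_cos_sq φ]
      ring
    have hs2 := Real.sin_sq_add_cos_sq (2 * φ)
    have e1 : (1 - ρ * Real.cos (2 * φ)) * (1 - ρ * Real.cos (2 * φ)) +
        -(ρ * Real.sin (2 * φ)) * -(ρ * Real.sin (2 * φ)) =
        1 - 2 * ρ * Real.cos (2 * φ) + ρ ^ 2 * (Real.sin (2 * φ) ^ 2 + Real.cos (2 * φ) ^ 2) := by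
      ring
    rw [e1, hs2, hc]
    ring
  have hsq : (2 * ε) ^ 2 ≤ ‖1 - (ρ : ℂ) * om M ^ t‖ ^ 2 := by
    rw [hnorm]
    have h5 : (2 * ε) ^ 2 ≤ Real.sin φ ^ 2 := by gcongr
    nlinarith [sq_nonneg (1 - ρ), sq_nonneg (Real.sin φ)]
  exact (pow_le_pow_iff_left₀ (by positivity) (norm_nonneg _) two_ne_zero).1 hsq

end Pool.Agent.V7H13.ET
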