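import Pool.Agent.V7H13.ET.CoreThm

/-!
The variance inequality for an infinite set of naturals (Abel means), and consequences.
-/

namespace Pool.Agent.V7H13.ET

open Finset Filter Topology

/-- The number of unordered representations of `n` as a sum of `h` elements of `A`. -/
noncomputable def rep (A : Set ℕ) (h n : ℕ) : ℕ :=
  Set.ncard {s : Multiset ℕ | Multiset.card s = h ∧ (∀ a ∈ s, a ∈ A) ∧ s.sum = n}

open Classical in
/-- The elements of `A` below `T`. -/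
noncomputable def cut (A : Set ℕ) (T : ℕ) : Finset ℕ := (range T).filter (fun a => a ∈ A)

lemma mem_cut {A : Set ℕ} {T a : ℕ} : a ∈ cut A T ↔ a < T ∧ a ∈ A := by
  unfold cut
  simp

lemma set_eq {A : Set ℕ} {h n T : ℕ} (hn : n < T) :
    {s : Multiset ℕ | Multiset.card s = h ∧ (∀ a ∈ s, a ∈ A) ∧ s.sum = n} =
      (((Ms (cut A T) h).filter (fun m => m.sum = n) : Finset (Multiset ℕ)) :
        Set (Multiset ℕ)) := by
  ext s
  simp only [Set.mem_setOf_eq, Finset.coe_filter, mem_Ms, mem_cut]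
  constructor
  · rintro ⟨h1, h2, h3⟩
    refine ⟨⟨h1, fun a ha => ⟨?_, h2 a ha⟩⟩, h3⟩
    have := Multiset.le_sum_of_mem ha
    omega
  · rintro ⟨⟨h1, h2⟩, h3⟩
    exact ⟨h1, fun a ha => (h2 a ha).2, h3⟩

lemma rep_eq_cnt {A : Set ℕ} {h n T : ℕ} (hn : n < T) : rep A h n = cnt (cut A T) h n := by
  unfold rep cnt
  rw [set_eq hn, Set.ncard_coe_finset]

lemma cnt_le_rep (A : Set ℕ) (h n T : ℕ) : cnt (cut A T) h n ≤ rep A h n := by
  rw [rep_eq_cnt (T := max T (n + 1)) (by omega)]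
  unfold cnt
  refine Finset.card_le_card ?_
  intro s hs
  rw [Finset.mem_filter, mem_Ms] at hs ⊢
  refine ⟨⟨hs.1.1, fun a ha => ?_⟩, hs.2⟩
  have := mem_cut.1 (hs.1.2 a ha)
  rw [mem_cut]
  exact ⟨by omega, this.2⟩

lemma exists_large_S {A : Set ℕ} (hA : A.Infinite) (S0 : ℝ) :
    ∃ T0 : ℕ, ∃ x0 : ℝ, x0 < 1 ∧ 1 / 16 ≤ x0 ∧ ∀ T ≥ T0, ∀ x : ℝ, x0 < x → x < 1 →
      S0 ≤ ∑ a ∈ cut A T, x ^ a := by
  obtain ⟨F, hFA, hFc⟩ := hA.exists_subset_card_eq (⌈2 * S0⌉₊)
  set T0 := F.sup id + 1 with hT0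
  have hF : ∀ a ∈ F, a < T0 := by
    intro a ha
    have : a ≤ F.sup id := Finset.le_sup (f := id) ha
    omega
  -- `x0 = 1 - 1/(2 T0)`
  have hT0p : (0 : ℝ) < T0 := by
    rw [hT0]
    positivity
  refine ⟨T0, max (1 / 16) (1 - 1 / (2 * T0)), max_lt (by norm_num) ?_, le_max_left _ _, ?_⟩
  · have : 0 < 1 / (2 * (T0 : ℝ)) := by positivity
    linarith
  · intro T hT x hx hx1
    have hx0 : 1 - 1 / (2 * (T0 : ℝ)) < x := (le_max_right _ _).trans_lt hx
    have hx2 : 1 / 16 < x := (le_max_left _ _).trans_lt hx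
    have hb : (1 : ℝ) / 2 ≤ x ^ T0 := by
      have h1 : 1 + (T0 : ℝ) * (x - 1) ≤ x ^ T0 := by
        have := one_add_mul_le_pow (a := x - 1) (by linarith) T0
        simpa using this
      have h2 : (T0 : ℝ) * (1 / (2 * (T0 : ℝ))) = 1 / 2 := by field_simp
      nlinarith
    have hsub : F ⊆ cut A T := by
      intro a ha
      rw [mem_cut]
      exact ⟨(hF a ha).trans_le hT, hFA ha⟩
    calc S0 ≤ (⌈2 * S0⌉₊ : ℝ) * (1 / 2) := by
          have := Nat.le_ceil (2 * S0)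
          linarith
      _ = ∑ a ∈ F, (1 / 2 : ℝ) := by
          rw [Finset.sum_const, hFc, nsmul_eq_mul]
      _ ≤ ∑ a ∈ F, x ^ a := by
          refine Finset.sum_le_sum (fun a ha => ?_)
          exact hb.trans (pow_le_pow_of_le_one (by linarith) hx1.le (hF a ha).le)
      _ ≤ ∑ a ∈ cut A T, x ^ a :=
          Finset.sum_le_sum_of_subset_of_nonneg hsub (fun a _ _ => pow_nonneg (by linarith) _)

lemma tail_le {x : ℝ} (hx0 : 0 ≤ x) (hx1 : x < 1) {T M : ℕ} (hTM : T ≤ M) :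
    (1 - x) * ∑ n ∈ Finset.Ico T M, x ^ n ≤ x ^ T := by
  rw [Finset.sum_Ico_eq_sum_range]
  have h1 : ∑ k ∈ range (M - T), x ^ (T + k) = x ^ T * ∑ k ∈ range (M - T), x ^ k := by
    rw [Finset.mul_sum]
    refine Finset.sum_congr rfl (fun k _ => ?_)
    rw [pow_add]
  rw [h1]
  have h2 := geo_le hx0 hx1 (M - T)
  have h3 : (1 - x) * ∑ k ∈ range (M - T), x ^ k ≤ 1 := by
    rw [le_div_iff₀ (by linarith)] at h2
    linarith
  have h4 : 0 ≤ x ^ T := pow_nonneg hx0 _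
  calc (1 - x) * (x ^ T * ∑ k ∈ range (M - T), x ^ k)
      = x ^ T * ((1 - x) * ∑ k ∈ range (M - T), x ^ k) := by ring
    _ ≤ x ^ T * 1 := mul_le_mul_of_nonneg_left h3 h4
    _ = x ^ T := mul_one _

/-- The variance inequality, with truncated Abel means. -/
theorem var_abel {g B : ℕ} {A : Set ℕ} (hA : A.Infinite) (hB : ∀ n, rep A (g + 2) n ≤ B)
    {δ : ℝ} (hδ : 0 < δ) :
    ∃ x0 : ℝ, x0 < 1 ∧ 1 / 16 ≤ x0 ∧ ∀ x : ℝ, x0 < x → x < 1 → ∃ T0 : ℕ, ∀ T ≥ T0,
      ((1 - x) * ∑ n ∈ range T, (rep A (g + 2) n : ℝ) * x ^ n) ^ 2 +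
        ((g : ℝ) + 1) / (g + 2) *
          ((1 - x) * ∑ n ∈ range T, (rep A (g + 2) n : ℝ) * x ^ n) - δ ≤
        (1 - x) * ∑ n ∈ range T, (rep A (g + 2) n : ℝ) ^ 2 * x ^ n := by
  obtain ⟨S0, hS0, hcore⟩ := core g B (δ := δ / 3) (by linarith)
  set f2 : ℝ := ((g + 2).factorial : ℝ) with hf2
  have hf2p : 0 < f2 := by
    rw [hf2]
    exact_mod_cast Nat.factorial_pos (g + 2)
  have hB0 : (0 : ℝ) ≤ B := Nat.cast_nonneg B
  set S1 : ℝ := max S0 ((2 * B + 1) * (f2 * B) * 3 / δ) with hS1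
  obtain ⟨T0, x0, hx01, hx016, hlarge⟩ := exists_large_S hA S1
  refine ⟨x0, hx01, hx016, ?_⟩
  intro x hxx0 hx1
  have hx0 : 0 < x := by linarith
  -- the tail
  obtain ⟨T1, hT1⟩ : ∃ T1 : ℕ, ∀ T ≥ T1, (B : ℝ) ^ 2 * x ^ T ≤ δ / 3 := by
    have h1 : Tendsto (fun T : ℕ => (B : ℝ) ^ 2 * x ^ T) atTop (𝓝 ((B : ℝ) ^ 2 * 0)) :=
      (tendsto_pow_atTop_nhds_zero_of_lt_one hx0.le hx1).const_mul _
    rw [mul_zero] at h1
    have h2 := h1.eventually (Iic_mem_nhds (show (0 : ℝ) < δ / 3 by linarith))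
    exact eventually_atTop.1 h2
  refine ⟨max T0 T1, ?_⟩
  intro T hT
  have hTT0 : T ≥ T0 := (le_max_left _ _).trans hT
  have hTT1 : T ≥ T1 := (le_max_right _ _).trans hT
  set S : ℝ := ∑ a ∈ cut A T, x ^ a with hS
  have hSS1 : S1 ≤ S := hlarge T hTT0 x hxx0 hx1
  have hSS0 : S0 ≤ S := (le_max_left _ _).trans hSS1
  have hSp : 1 ≤ S := hS0.trans hSS0
  set M : ℕ := (g + 2) * T + 1 with hM
  have hTM : T ≤ M := by
    rw [hM]
    nlinarith
  have hcutT : ∀ a ∈ cut A T, a < T := fun a ha => (mem_cut.1 ha).1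
  have hcB : ∀ n, cnt (cut A T) (g + 2) n ≤ B := fun n => (cnt_le_rep A (g + 2) n T).trans (hB n)
  have hc := hcore (cut A T) T M hcutT (by omega) hcB x (by linarith) hx1 hSS0
  rw [← hS] at hc
  have hbd : ∀ m ∈ Ms (cut A T) (g + 2), m.sum < M := fun m hm =>
    sum_lt hcutT (show (g + 2) * T < M by omega) le_rfl hm
  -- second moment
  have h2 : (1 - x) * That (cut A T) (g + 2) x M ≤
      (1 - x) * ∑ n ∈ range T, (rep A (g + 2) n : ℝ) ^ 2 * x ^ n + δ / 3 := by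
    unfold That
    rw [← Finset.sum_range_add_sum_Ico _ hTM, mul_add]
    refine add_le_add (le_of_eq ?_) ?_
    · congr 1
      refine Finset.sum_congr rfl (fun n hn => ?_)
      rw [rep_eq_cnt (Finset.mem_range.1 hn)]
    · calc (1 - x) * ∑ n ∈ Finset.Ico T M, (cnt (cut A T) (g + 2) n : ℝ) ^ 2 * x ^ n
          ≤ (1 - x) * ∑ n ∈ Finset.Ico T M, (B : ℝ) ^ 2 * x ^ n := by
            refine mul_le_mul_of_nonneg_left ?_ (by linarith)
            refine Finset.sum_le_sum (fun n _ => ?_)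
            refine mul_le_mul_of_nonneg_right ?_ (pow_nonneg hx0.le _)
            have : (cnt (cut A T) (g + 2) n : ℝ) ≤ B := by exact_mod_cast hcB n
            exact pow_le_pow_left₀ (Nat.cast_nonneg _) this 2
        _ = (B : ℝ) ^ 2 * ((1 - x) * ∑ n ∈ Finset.Ico T M, x ^ n) := by
            rw [← Finset.mul_sum]
            ring
        _ ≤ (B : ℝ) ^ 2 * x ^ T :=
            mul_le_mul_of_nonneg_left (tail_le hx0.le hx1 hTM) (by positivity)
        _ ≤ δ / 3 := hT1 T hTT1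
  -- first moment
  set μ : ℝ := (1 - x) * ∑ n ∈ range T, (rep A (g + 2) n : ℝ) * x ^ n with hμ
  set μS : ℝ := ((1 - x) * S ^ (g + 2)) / f2 with hμS
  have hx1' : 0 < 1 - x := by linarith
  have hμ0 : 0 ≤ μ := mul_nonneg hx1'.le (Finset.sum_nonneg (fun n _ =>
    mul_nonneg (Nat.cast_nonneg _) (pow_nonneg hx0.le _)))
  have hμS0 : 0 ≤ μS := by positivity
  have hμB : μ ≤ B := by
    have h3 : ∑ n ∈ range T, (rep A (g + 2) n : ℝ) * x ^ n ≤ B * (1 / (1 - x)) := by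
      calc ∑ n ∈ range T, (rep A (g + 2) n : ℝ) * x ^ n ≤ ∑ n ∈ range T, (B : ℝ) * x ^ n := by
            refine Finset.sum_le_sum (fun n _ => ?_)
            have h1 : (rep A (g + 2) n : ℝ) ≤ B := by exact_mod_cast hB n
            exact mul_le_mul_of_nonneg_right h1 (pow_nonneg hx0.le _)
        _ = B * ∑ n ∈ range T, x ^ n := by rw [Finset.mul_sum]
        _ ≤ _ := mul_le_mul_of_nonneg_left (geo_le hx0.le hx1 T) (by positivity)
    calc μ ≤ (1 - x) * (B * (1 / (1 - x))) := mul_le_mul_of_nonneg_left h3 hx1'.le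
      _ = B := by field_simp
  set e : ℝ := f2 * B / S with he
  have he0 : 0 ≤ e := by positivity
  have hμe : μ ≤ μS + e := by
    have h3 : ∑ n ∈ range T, (rep A (g + 2) n : ℝ) * x ^ n ≤
        ∑ n ∈ range M, (cnt (cut A T) (g + 2) n : ℝ) * x ^ n := by
      calc ∑ n ∈ range T, (rep A (g + 2) n : ℝ) * x ^ n =
            ∑ n ∈ range T, (cnt (cut A T) (g + 2) n : ℝ) * x ^ n := by
            refine Finset.sum_congr rfl (fun n hn => ?_)
            rw [rep_eq_cnt (Finset.mem_range.1 hn)]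
        _ ≤ _ := Finset.sum_le_sum_of_subset_of_nonneg
            (Finset.range_subset_range.2 hTM)
            (fun n _ _ => mul_nonneg (Nat.cast_nonneg _) (pow_nonneg hx0.le _))
    have h4 := sum_cnt_le (A := cut A T) (j := g + 1) (M := M) hbd hx0.le hx1.le
    rw [← hS] at h4
    have h5 : f2 * ∑ n ∈ range M, (cnt (cut A T) (g + 2) n : ℝ) * x ^ n ≤
        S ^ (g + 2) + f2 * S ^ (g + 1) := h4
    have h6 := le_sum_cnt (A := cut A T) (j := g + 2) (M := M) hbd hx0.le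
    rw [← hS, ← hf2] at h6
    have h7 := sum_cnt_le_geo (M := M) hcB hx0.le hx1
    have h8 : (1 - x) * S ^ (g + 2) ≤ f2 * B := by
      calc (1 - x) * S ^ (g + 2) ≤ (1 - x) * (f2 * (B * (1 / (1 - x)))) := by
            refine mul_le_mul_of_nonneg_left (h6.trans ?_) hx1'.le
            exact mul_le_mul_of_nonneg_left h7 hf2p.le
        _ = f2 * B := by field_simp
    have h9 : (1 - x) * S ^ (g + 1) ≤ e := by
      rw [he, le_div_iff₀ (by linarith)]
      calc (1 - x) * S ^ (g + 1) * S = (1 - x) * S ^ (g + 2) := by ring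
        _ ≤ _ := h8
    have h10 : f2 * μ ≤ f2 * (μS + e) := by
      calc f2 * μ ≤ (1 - x) * (f2 * ∑ n ∈ range M, (cnt (cut A T) (g + 2) n : ℝ) * x ^ n) := by
            rw [hμ]
            have := mul_le_mul_of_nonneg_left h3 (mul_nonneg hx1'.le hf2p.le)
            calc _ = (1 - x) * f2 * ∑ n ∈ range T, (rep A (g + 2) n : ℝ) * x ^ n := by ring
              _ ≤ _ := this
              _ = _ := by ring
        _ ≤ (1 - x) * (S ^ (g + 2) + f2 * S ^ (g + 1)) :=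
            mul_le_mul_of_nonneg_left h5 hx1'.le
        _ = (1 - x) * S ^ (g + 2) + f2 * ((1 - x) * S ^ (g + 1)) := by ring
        _ ≤ (1 - x) * S ^ (g + 2) + f2 * e := by
            have := mul_le_mul_of_nonneg_left h9 hf2p.le
            linarith
        _ = f2 * (μS + e) := by
            rw [hμS]
            field_simp
    exact le_of_mul_le_mul_left h10 hf2p
  set c : ℝ := ((g : ℝ) + 1) / (g + 2) with hcdef
  have hc0 : 0 ≤ c := by positivity
  have hc1 : c ≤ 1 := by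
    rw [hcdef, div_le_one (by positivity)]
    linarith
  have hquad : μ ^ 2 + c * μ - (2 * B + 1) * e ≤ μS ^ 2 + c * μS := by
    have h3 : (2 * μ + c) * e ≤ (2 * B + 1) * e :=
      mul_le_mul_of_nonneg_right (by linarith) he0
    rcases le_total μ e with h4 | h4
    · have h5 : μ ^ 2 ≤ μ * e := by nlinarith
      have h6 : c * μ ≤ c * e := mul_le_mul_of_nonneg_left h4 hc0
      have h7 : 0 ≤ μ * e := mul_nonneg hμ0 he0
      have h8 : 0 ≤ μS ^ 2 + c * μS := by positivity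
      linarith
    · have h5 : (μ - e) ^ 2 ≤ μS ^ 2 := pow_le_pow_left₀ (by linarith) (by linarith) 2
      have h6 : c * (μ - e) ≤ c * μS := mul_le_mul_of_nonneg_left (by linarith) hc0
      have h7 : 0 ≤ e ^ 2 := sq_nonneg e
      nlinarith
  have herr : (2 * B + 1) * e ≤ δ / 3 := by
    have h3 : (2 * B + 1) * (f2 * B) * 3 / δ ≤ S := (le_max_right _ _).trans hSS1
    rw [div_le_iff₀ hδ] at h3
    have h4 : (2 * (B : ℝ) + 1) * e = (2 * B + 1) * (f2 * B) / S := by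
      rw [he]
      ring
    rw [h4, div_le_iff₀ (by linarith)]
    linarith
  linarith

end Pool.Agent.V7H13.ET
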