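import Pool.Agent.V7H13.ET.Weighted
import Pool.Agent.V7H13.ET.Fourier

/-!
The spectral inequality: the second moment of `r_{h-1}` is controlled by the variance of `r_h`.
-/

namespace Pool.Agent.V7H13.ET

open Finset Complex

/-- The modulus of the generating function at the `t`-th point of the circle. -/
noncomputable def FF (A : Finset ℕ) (ρ : ℝ) (M t : ℕ) : ℝ :=
  ‖∑ a ∈ A, ((ρ : ℂ) * om M ^ t) ^ a‖

lemma FF_nonneg (A : Finset ℕ) (ρ : ℝ) (M t : ℕ) : 0 ≤ FF A ρ M t := norm_nonneg _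

lemma sum_FF {A : Finset ℕ} {j M : ℕ} (hM0 : M ≠ 0) (hM : ∀ m ∈ Ms A j, m.sum < M) (ρ : ℝ) :
    ∑ t ∈ range M, FF A ρ M t ^ (2 * j) = M * EE A j (ρ ^ 2) M := by
  unfold EE
  rw [← parseval hM0]
  refine Finset.sum_congr rfl (fun t _ => ?_)
  unfold FF
  rw [mul_comm 2 j, pow_mul, ← norm_pow, sum_pow_RR hM]
  norm_cast

lemma card_major {M : ℕ} {ε : ℝ} (hε : 0 < ε) (hε1 : ε ≤ 1 / 2) (hM : 1 ≤ ε * M) :
    (((range M).filter (fun t : ℕ => ¬ (ε * M ≤ t ∧ (t : ℝ) ≤ (1 - ε) * M))).card : ℝ) ≤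
      4 * ε * M := by
  have hM0 : (0 : ℝ) ≤ M := Nat.cast_nonneg M
  have hsub : (range M).filter (fun t : ℕ => ¬ (ε * M ≤ t ∧ (t : ℝ) ≤ (1 - ε) * M)) ⊆
      range (⌈ε * M⌉₊) ∪ Finset.Ico (⌊(1 - ε) * M⌋₊) M := by
    intro t ht
    rw [Finset.mem_filter, Finset.mem_range] at ht
    rw [Finset.mem_union, Finset.mem_range, Finset.mem_Ico]
    by_cases h1 : ε * M ≤ t
    · right
      have h2 : (1 - ε) * M < t := by
        by_contra hcon
        exact ht.2 ⟨h1, not_lt.1 hcon⟩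
      refine ⟨?_, ht.1⟩
      have h3 : ⌊(1 - ε) * M⌋₊ ≤ ⌊(t : ℝ)⌋₊ := Nat.floor_le_floor h2.le
      rwa [Nat.floor_natCast] at h3
    · left
      exact Nat.lt_ceil.2 (not_le.1 h1)
  have h1 := (Finset.card_le_card hsub).trans (Finset.card_union_le _ _)
  rw [Finset.card_range, Nat.card_Ico] at h1
  have h2 : (⌈ε * M⌉₊ : ℝ) < ε * M + 1 := Nat.ceil_lt_add_one (by positivity)
  have h3 : (1 - ε) * M < (⌊(1 - ε) * M⌋₊ : ℝ) + 1 := Nat.lt_floor_add_one _
  have h4 : ⌊(1 - ε) * M⌋₊ ≤ M := by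
    have : ⌊(1 - ε) * M⌋₊ ≤ ⌊(M : ℝ)⌋₊ := Nat.floor_le_floor (by nlinarith)
    rwa [Nat.floor_natCast] at this
  have h5 : ((M - ⌊(1 - ε) * M⌋₊ : ℕ) : ℝ) = M - (⌊(1 - ε) * M⌋₊ : ℝ) := by
    rw [Nat.cast_sub h4]
  have h6 : (((range M).filter (fun t : ℕ => ¬ (ε * M ≤ t ∧ (t : ℝ) ≤ (1 - ε) * M))).card : ℝ) ≤
      (⌈ε * M⌉₊ : ℝ) + ((M - ⌊(1 - ε) * M⌋₊ : ℕ) : ℝ) := by exact_mod_cast h1
  rw [h5] at h6
  nlinarith

lemma pow_split {X lam : ℝ} (hX : 0 ≤ X) (hl : 0 < lam) (g : ℕ) :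
    X ^ (2 * g) ≤ lam ^ 2 * X ^ (2 * (g + 2)) + (1 / lam) ^ g := by
  by_cases h : 1 ≤ lam * X ^ 2
  · have h1 : (1 : ℝ) ≤ (lam * X ^ 2) ^ 2 := one_le_pow₀ h
    have h2 : 0 ≤ X ^ (2 * g) := pow_nonneg hX _
    have h3 : 0 ≤ (1 / lam) ^ g := by positivity
    have h4 : lam ^ 2 * X ^ (2 * (g + 2)) = (lam * X ^ 2) ^ 2 * X ^ (2 * g) := by ring
    rw [h4]
    nlinarith
  · push Not at h
    have h1 : X ^ 2 ≤ 1 / lam := by
      rw [le_div_iff₀ hl]
      linarith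
    have h2 : X ^ (2 * g) ≤ (1 / lam) ^ g := by
      rw [pow_mul]
      exact pow_le_pow_left₀ (sq_nonneg X) h1 g
    have h3 : 0 ≤ lam ^ 2 * X ^ (2 * (g + 2)) := by positivity
    linarith

/-- The spectral inequality. -/
theorem spectral {A : Finset ℕ} {g M : ℕ} (hM0 : M ≠ 0)
    (hM : ∀ j ≤ g + 2, ∀ m ∈ Ms A j, m.sum < M)
    {ρ : ℝ} (hρ : 1 / 4 ≤ ρ) (hρ1 : ρ < 1) {β lam ε : ℝ} (hβ : 0 < β) (hl : 0 < lam)
    (hε : 0 < ε) (hε1 : ε ≤ 1 / 2) (hεM : 1 ≤ ε * M) :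
    ∃ Q : ℝ, 0 ≤ Q ∧
      Q ^ 2 ≤ (EE A (g + 2) (ρ ^ 2) M -
        (1 - ρ ^ 2) * ((∑ a ∈ A, (ρ ^ 2) ^ a) ^ (g + 2)) ^ 2) * EE A g (ρ ^ 2) M ∧
      EE A (g + 1) (ρ ^ 2) M ≤ Q +
        ((1 - ρ ^ 2) * (∑ a ∈ A, (ρ ^ 2) ^ a) ^ (g + 2)) *
        (1 / (2 * ε) * (1 + EE A g (ρ ^ 2) M) + β / 2 * (1 / (1 - ρ ^ 2)) +
          1 / (2 * β) * (lam ^ 2 * EE A (g + 2) (ρ ^ 2) M + 4 * ε * (1 / lam) ^ g)) := by
  have hρ0 : 0 < ρ := by linarith
  have hx1 : ρ ^ 2 < 1 := by nlinarith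
  have hx0 : 0 < ρ ^ 2 := by positivity
  set x : ℝ := ρ ^ 2 with hx
  set S : ℝ := ∑ a ∈ A, x ^ a with hS
  have hSn : 0 ≤ S := S_nonneg A hx0.le
  set m : ℝ := (1 - x) * S ^ (g + 2) with hm
  have hm0 : 0 ≤ m := mul_nonneg (by linarith) (pow_nonneg hSn _)
  have hMr : (0 : ℝ) < M := by exact_mod_cast Nat.pos_of_ne_zero hM0
  have hgeo : ∑ n ∈ range M, x ^ n ≤ 1 / (1 - x) := by
    rw [le_div_iff₀ (by linarith)]
    have := mul_neg_geom_sum x M
    have h2 : 0 ≤ x ^ M := by positivity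
    nlinarith
  -- the pointwise decomposition
  let z : ℕ → ℂ := fun t => (ρ : ℂ) * om M ^ t
  let D : ℕ → ℝ := fun t => ‖∑ n ∈ range M, (z t) ^ n‖
  let P : ℕ → ℝ := fun t => ‖∑ n ∈ range M, (((RR A (g + 2) n : ℝ) - m : ℝ) : ℂ) * (z t) ^ n‖
  have hnormz : ∀ t, ‖z t‖ ≤ 1 := by
    intro t
    simp only [z]
    rw [norm_mul, norm_pow, norm_om hM0, one_pow, mul_one, Complex.norm_real,
      Real.norm_of_nonneg hρ0.le]
    exact hρ1.le
  have hdecomp : ∀ t, FF A ρ M t ^ (g + 2) ≤ P t + m * D t := by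
    intro t
    have h1 : (∑ a ∈ A, (z t) ^ a) ^ (g + 2) =
        ∑ n ∈ range M, (((RR A (g + 2) n : ℝ) - m : ℝ) : ℂ) * (z t) ^ n +
        (m : ℂ) * ∑ n ∈ range M, (z t) ^ n := by
      rw [sum_pow_RR (hM (g + 2) le_rfl), Finset.mul_sum, ← Finset.sum_add_distrib]
      refine Finset.sum_congr rfl (fun n _ => ?_)
      push_cast
      ring
    unfold FF
    rw [← norm_pow]
    change ‖(∑ a ∈ A, (z t) ^ a) ^ (g + 2)‖ ≤ _
    rw [h1]
    refine (norm_add_le _ _).trans ?_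
    rw [norm_mul, Complex.norm_real, Real.norm_of_nonneg hm0]
  have hPsum : ∑ t ∈ range M, P t ^ 2 = M * ∑ n ∈ range M, ((RR A (g + 2) n : ℝ) - m) ^ 2 * x ^ n :=
    parseval hM0 (fun n => (RR A (g + 2) n : ℝ) - m) ρ
  have hDsum : ∑ t ∈ range M, D t ^ 2 = M * ∑ n ∈ range M, x ^ n := by
    have := parseval hM0 (fun _ => (1 : ℝ)) ρ
    simp only [Complex.ofReal_one, one_mul, one_pow] at this
    exact this
  have hV : ∑ n ∈ range M, ((RR A (g + 2) n : ℝ) - m) ^ 2 * x ^ n ≤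
      EE A (g + 2) x M - (1 - x) * (S ^ (g + 2)) ^ 2 := by
    have h1 : ∑ n ∈ range M, ((RR A (g + 2) n : ℝ) - m) ^ 2 * x ^ n =
        EE A (g + 2) x M - 2 * m * ∑ n ∈ range M, (RR A (g + 2) n : ℝ) * x ^ n +
        m ^ 2 * ∑ n ∈ range M, x ^ n := by
      unfold EE
      rw [Finset.mul_sum, Finset.mul_sum, ← Finset.sum_sub_distrib, ← Finset.sum_add_distrib]
      refine Finset.sum_congr rfl (fun n _ => ?_)
      ring
    have h2 : ∑ n ∈ range M, (RR A (g + 2) n : ℝ) * x ^ n = S ^ (g + 2) :=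
      (sum_pow_RR (hM (g + 2) le_rfl) x).symm
    have h3 := mul_le_mul_of_nonneg_left hgeo (sq_nonneg m)
    have h4 : m ^ 2 * (1 / (1 - x)) = (1 - x) * (S ^ (g + 2)) ^ 2 := by
      have : (1 - x) ≠ 0 := by linarith
      rw [hm]
      field_simp
    rw [h1, h2]
    rw [h4] at h3
    have h5 : 2 * m * S ^ (g + 2) = 2 * ((1 - x) * (S ^ (g + 2)) ^ 2) := by
      rw [hm]
      ring
    rw [h5]
    linarith
  -- the quantity Q
  refine ⟨(∑ t ∈ range M, P t * FF A ρ M t ^ g) / M, ?_, ?_, ?_⟩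
  · exact div_nonneg (Finset.sum_nonneg (fun t _ =>
      mul_nonneg (norm_nonneg _) (pow_nonneg (FF_nonneg _ _ _ _) _))) hMr.le
  · have hCS := Finset.sum_mul_sq_le_sq_mul_sq (range M) P (fun t => FF A ρ M t ^ g)
    have h1 : ∑ t ∈ range M, (FF A ρ M t ^ g) ^ 2 = M * EE A g x M := by
      rw [← sum_FF hM0 (hM g (by omega)) ρ]
      refine Finset.sum_congr rfl (fun t _ => ?_)
      ring
    rw [hPsum, h1] at hCS
    rw [div_pow, div_le_iff₀ (by positivity)]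
    calc (∑ t ∈ range M, P t * FF A ρ M t ^ g) ^ 2
        ≤ (M * ∑ n ∈ range M, ((RR A (g + 2) n : ℝ) - m) ^ 2 * x ^ n) * (M * EE A g x M) := hCS
      _ ≤ (M * (EE A (g + 2) x M - (1 - x) * (S ^ (g + 2)) ^ 2)) * (M * EE A g x M) := by
          refine mul_le_mul_of_nonneg_right ?_ (mul_nonneg hMr.le (EE_nonneg A g hx0.le M))
          exact mul_le_mul_of_nonneg_left hV hMr.le
      _ = _ := by ring
  · -- the main bound
    have hmain : M * EE A (g + 1) x M ≤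
        ∑ t ∈ range M, P t * FF A ρ M t ^ g + m * ∑ t ∈ range M, D t * FF A ρ M t ^ g := by
      rw [← sum_FF hM0 (hM (g + 1) (by omega)) ρ, Finset.mul_sum, ← Finset.sum_add_distrib]
      refine Finset.sum_le_sum (fun t _ => ?_)
      have h1 := hdecomp t
      have h2 : 0 ≤ FF A ρ M t ^ g := pow_nonneg (FF_nonneg _ _ _ _) _
      calc FF A ρ M t ^ (2 * (g + 1)) = FF A ρ M t ^ (g + 2) * FF A ρ M t ^ g := by ring
        _ ≤ (P t + m * D t) * FF A ρ M t ^ g := mul_le_mul_of_nonneg_right h1 h2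
        _ = _ := by ring
    have hD : ∑ t ∈ range M, D t * FF A ρ M t ^ g ≤
        M * (1 / (2 * ε) * (1 + EE A g x M) + β / 2 * (1 / (1 - x)) +
          1 / (2 * β) * (lam ^ 2 * EE A (g + 2) x M + 4 * ε * (1 / lam) ^ g)) := by
      have hpt : ∀ t ∈ range M, D t * FF A ρ M t ^ g ≤
          1 / (2 * ε) * (1 + FF A ρ M t ^ (2 * g)) + β / 2 * D t ^ 2 +
          1 / (2 * β) * (lam ^ 2 * FF A ρ M t ^ (2 * (g + 2)) +
            if ¬ (ε * M ≤ t ∧ (t : ℝ) ≤ (1 - ε) * M) then (1 / lam) ^ g else 0) := by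
        intro t _
        have hF := FF_nonneg A ρ M t
        have hFg : 0 ≤ FF A ρ M t ^ g := pow_nonneg hF _
        have hD0 : 0 ≤ D t := norm_nonneg _
        by_cases hmaj : ¬ (ε * M ≤ t ∧ (t : ℝ) ≤ (1 - ε) * M)
        · rw [if_pos hmaj]
          have h1 := pow_split hF hl g
          have h2 : D t * FF A ρ M t ^ g ≤ β / 2 * D t ^ 2 +
              1 / (2 * β) * FF A ρ M t ^ (2 * g) := by
            have h3 : 0 ≤ (β * D t - FF A ρ M t ^ g) ^ 2 / (2 * β) := by positivity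
            have h4 : (β * D t - FF A ρ M t ^ g) ^ 2 / (2 * β) =
                β / 2 * D t ^ 2 + 1 / (2 * β) * FF A ρ M t ^ (2 * g) -
                D t * FF A ρ M t ^ g := by
              field_simp
              ring
            linarith
          have h5 : 0 ≤ 1 / (2 * ε) * (1 + FF A ρ M t ^ (2 * g)) := by positivity
          have h6 := mul_le_mul_of_nonneg_left h1 (show 0 ≤ 1 / (2 * β) by positivity)
          linarith
        · rw [if_neg hmaj]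
          push Not at hmaj
          have hmin := minor_bound hM0 hρ hε hmaj.1 hmaj.2
          have hgb := geom_bound (hnormz t) M
          have h7 : D t ≤ 1 / ε := by
            rw [le_div_iff₀ hε]
            have : 2 * ε * D t ≤ 2 :=
              (mul_le_mul_of_nonneg_right hmin hD0).trans hgb
            linarith
          have h8 : D t * FF A ρ M t ^ g ≤ 1 / ε * FF A ρ M t ^ g :=
            mul_le_mul_of_nonneg_right h7 hFg
          have h9 : FF A ρ M t ^ g ≤ 1 / 2 * (1 + FF A ρ M t ^ (2 * g)) := by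
            have : FF A ρ M t ^ (2 * g) = (FF A ρ M t ^ g) ^ 2 := by ring
            rw [this]
            nlinarith [sq_nonneg (FF A ρ M t ^ g - 1)]
          have h10 : 1 / ε * FF A ρ M t ^ g ≤ 1 / (2 * ε) * (1 + FF A ρ M t ^ (2 * g)) := by
            calc 1 / ε * FF A ρ M t ^ g ≤ 1 / ε * (1 / 2 * (1 + FF A ρ M t ^ (2 * g))) :=
                  mul_le_mul_of_nonneg_left h9 (by positivity)
              _ = _ := by
                  field_simp
          have h11 : 0 ≤ β / 2 * D t ^ 2 := by positivity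
          have h12 : 0 ≤ 1 / (2 * β) * (lam ^ 2 * FF A ρ M t ^ (2 * (g + 2)) + 0) := by positivity
          linarith
      refine (Finset.sum_le_sum hpt).trans ?_
      rw [Finset.sum_add_distrib, Finset.sum_add_distrib, ← Finset.mul_sum, ← Finset.mul_sum,
        ← Finset.mul_sum, Finset.sum_add_distrib, Finset.sum_add_distrib, ← Finset.mul_sum,
        sum_FF hM0 (hM g (by omega)) ρ, sum_FF hM0 (hM (g + 2) le_rfl) ρ, hDsum,
        ← Finset.sum_filter, Finset.sum_const, Finset.sum_const, Finset.card_range,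
        nsmul_eq_mul, nsmul_eq_mul]
      have hc := card_major (M := M) hε hε1 hεM
      have h1 : β / 2 * (M * ∑ n ∈ range M, x ^ n) ≤ β / 2 * (M * (1 / (1 - x))) := by
        gcongr
      have h2 : (((range M).filter (fun t : ℕ => ¬ (ε * M ≤ t ∧ (t : ℝ) ≤ (1 - ε) * M))).card : ℝ) *
          (1 / lam) ^ g ≤ (4 * ε * M) * (1 / lam) ^ g :=
        mul_le_mul_of_nonneg_right hc (by positivity)
      have h3 := mul_le_mul_of_nonneg_left h2 (show 0 ≤ 1 / (2 * β) by positivity)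
      rw [← hx]
      calc _ ≤ 1 / (2 * ε) * ((M : ℝ) * 1 + M * EE A g x M) + β / 2 * (M * (1 / (1 - x))) +
            1 / (2 * β) * (lam ^ 2 * (M * EE A (g + 2) x M) + (4 * ε * M) * (1 / lam) ^ g) := by
            rw [mul_add (1 / (2 * β)), mul_add (1 / (2 * β))]
            linarith
        _ = _ := by ring
    rw [div_add' _ _ _ hMr.ne', le_div_iff₀ hMr]
    have := mul_le_mul_of_nonneg_left hD hm0
    calc EE A (g + 1) x M * M = M * EE A (g + 1) x M := by ring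
      _ ≤ _ := hmain
      _ ≤ _ := add_le_add_right this _
      _ = _ := by ring

end Pool.Agent.V7H13.ET
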