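import Pool.Agent.V7H13.ET.Comb

/-!
Weighted inequalities between the counting functions of multisets.
-/

namespace Pool.Agent.V7H13.ET

open Finset

lemma sum_comp_le {ι κ : Type*} [DecidableEq κ] (s : Finset ι) (t : Finset κ) (φ : ι → κ)
    (hφ : ∀ i ∈ s, φ i ∈ t) (g : κ → ℝ) (hg : ∀ q ∈ t, 0 ≤ g q) (c : ℕ)
    (hc : ∀ q ∈ t, (s.filter (fun i => φ i = q)).card ≤ c) :
    ∑ i ∈ s, g (φ i) ≤ (c : ℝ) * ∑ q ∈ t, g q := by
  rw [← Finset.sum_fiberwise_of_maps_to hφ, Finset.mul_sum]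
  refine Finset.sum_le_sum (fun q hq => ?_)
  rw [Finset.sum_congr rfl (g := fun _ => g q)
    (fun i hi => by rw [(Finset.mem_filter.1 hi).2])]
  rw [Finset.sum_const, nsmul_eq_mul]
  exact mul_le_mul_of_nonneg_right (by exact_mod_cast hc q hq) (hg q hq)

lemma sum_le_sum_comp {ι κ : Type*} [DecidableEq κ] (s : Finset ι) (t : Finset κ) (φ : ι → κ)
    (hs : ∀ q ∈ t, ∃ i ∈ s, φ i = q) (g : κ → ℝ) (hg : ∀ q, 0 ≤ g q) :
    ∑ q ∈ t, g q ≤ ∑ i ∈ s, g (φ i) := by
  calc ∑ q ∈ t, g q ≤ ∑ q ∈ t, ∑ i ∈ (s.filter (fun i => φ i ∈ t)).filter (fun i => φ i = q),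
        g (φ i) := by
        refine Finset.sum_le_sum (fun q hq => ?_)
        obtain ⟨i, hi, rfl⟩ := hs q hq
        refine Finset.single_le_sum (f := fun i => g (φ i)) (fun j _ => hg _) ?_
        simp [hi, hq]
    _ = ∑ i ∈ s.filter (fun i => φ i ∈ t), g (φ i) := by
        rw [Finset.sum_fiberwise_of_maps_to]
        intro i hi
        exact (Finset.mem_filter.1 hi).2
    _ ≤ ∑ i ∈ s, g (φ i) :=
        Finset.sum_le_sum_of_subset_of_nonneg (Finset.filter_subset _ _) (fun i _ _ => hg _)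

/-- Pairs of multisets with equal sums. -/
def PT (A : Finset ℕ) (j : ℕ) : Finset (Multiset ℕ × Multiset ℕ) :=
  (Ms A j ×ˢ Ms A j).filter (fun p => p.1.sum = p.2.sum)

/-- The weighted second moment of the number of unordered representations. -/
def That (A : Finset ℕ) (j : ℕ) (x : ℝ) (M : ℕ) : ℝ :=
  ∑ n ∈ range M, ((cnt A j n : ℝ)) ^ 2 * x ^ n

lemma That_eq {A : Finset ℕ} {j M : ℕ} (hM : ∀ m ∈ Ms A j, m.sum < M) (x : ℝ) :
    That A j x M = ∑ p ∈ PT A j, x ^ p.1.sum := by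
  unfold That
  rw [← Finset.sum_fiberwise_of_maps_to (s := PT A j) (t := range M) (g := fun p => p.1.sum)]
  · refine Finset.sum_congr rfl (fun n _ => ?_)
    rw [Finset.sum_congr rfl (g := fun _ => x ^ n)
      (fun i hi => by rw [(Finset.mem_filter.1 hi).2])]
    rw [Finset.sum_const, nsmul_eq_mul]
    congr 1
    have h : (PT A j).filter (fun p => p.1.sum = n) =
        ((Ms A j).filter (fun m => m.sum = n)) ×ˢ ((Ms A j).filter (fun m => m.sum = n)) := by
      ext p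
      simp only [PT, Finset.mem_filter, Finset.mem_product]
      constructor
      · rintro ⟨⟨⟨h1, h2⟩, h3⟩, h4⟩
        exact ⟨⟨h1, h4⟩, h2, by rw [← h3, h4]⟩
      · rintro ⟨⟨h1, h4⟩, h2, h5⟩
        exact ⟨⟨⟨h1, h2⟩, by rw [h4, h5]⟩, h4⟩
    rw [h, Finset.card_product]
    unfold cnt
    push_cast
    ring
  · intro p hp
    have h1 := Finset.mem_filter.1 hp
    have h2 := (Finset.mem_product.1 h1.1).1
    exact Finset.mem_range.2 (hM _ h2)

/-- Lemma A: adding a common element to both members of a pair. -/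
lemma S_mul_That_le {A : Finset ℕ} {j M : ℕ} (hM : ∀ m ∈ Ms A j, m.sum < M)
    (hM' : ∀ m ∈ Ms A (j + 1), m.sum < M) {x : ℝ} (hx : 0 ≤ x) :
    (∑ a ∈ A, x ^ a) * That A j x M ≤ ((j + 1 : ℕ) : ℝ) * That A (j + 1) x M := by
  rw [That_eq hM, That_eq hM', Finset.sum_mul_sum, ← Finset.sum_product']
  have key := sum_comp_le (A ×ˢ PT A j) (PT A (j + 1))
    (fun y => (y.1 ::ₘ y.2.1, y.1 ::ₘ y.2.2)) ?_ (fun q => x ^ q.1.sum)
    (fun q _ => pow_nonneg hx _) (j + 1) ?_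
  · refine le_trans (le_of_eq ?_) key
    refine Finset.sum_congr rfl (fun y _ => ?_)
    simp only [Multiset.sum_cons, pow_add]
  · intro y hy
    simp only [PT, Finset.mem_product, Finset.mem_filter, mem_Ms, Multiset.sum_cons,
      Multiset.card_cons] at hy ⊢
    obtain ⟨ha, ⟨⟨⟨h1, h2⟩, h3, h4⟩, h5⟩⟩ := hy
    refine ⟨⟨⟨by rw [h1], ?_⟩, by rw [h3], ?_⟩, by rw [h5]⟩
    · intro b hb
      rcases Multiset.mem_cons.1 hb with rfl | hb
      · exact ha
      · exact h2 b hb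
    · intro b hb
      rcases Multiset.mem_cons.1 hb with rfl | hb
      · exact ha
      · exact h4 b hb
  · intro q hq
    have hq1 : Multiset.card q.1 = j + 1 := by
      simp only [PT, Finset.mem_product, Finset.mem_filter, mem_Ms] at hq
      exact hq.1.1.1
    rw [← hq1]
    refine le_trans ?_ (Multiset.toFinset_card_le q.1)
    refine Finset.card_le_card_of_injOn (fun y => y.1) ?_ ?_
    · intro y hy
      have h1 := (Finset.mem_filter.1 (Finset.mem_coe.1 hy)).2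
      rw [Finset.mem_coe, Multiset.mem_toFinset, ← h1]
      exact Multiset.mem_cons_self _ _
    · intro y hy y' hy' hyy
      have h1 := (Finset.mem_filter.1 (Finset.mem_coe.1 hy)).2
      have h2 := (Finset.mem_filter.1 (Finset.mem_coe.1 hy')).2
      have hyy' : y.1 = y'.1 := hyy
      rw [← h2, hyy'] at h1
      have h3 := congrArg Prod.fst h1
      have h4 := congrArg Prod.snd h1
      simp only [Multiset.cons_inj_right] at h3 h4
      exact Prod.ext hyy' (Prod.ext h3 h4)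

lemma That_nonneg (A : Finset ℕ) (j : ℕ) {x : ℝ} (hx : 0 ≤ x) (M : ℕ) : 0 ≤ That A j x M :=
  Finset.sum_nonneg (fun _ _ => mul_nonneg (sq_nonneg _) (pow_nonneg hx _))

lemma S_nonneg (A : Finset ℕ) {x : ℝ} (hx : 0 ≤ x) : 0 ≤ ∑ a ∈ A, x ^ a :=
  Finset.sum_nonneg (fun _ _ => pow_nonneg hx _)

/-- The lower bound `S^j ≤ j! T_j`. -/
lemma pow_le_That {A : Finset ℕ} {T h M : ℕ} (hA : ∀ a ∈ A, a < T) (hM : h * T < M)
    {x : ℝ} (hx : 0 ≤ x) (j : ℕ) (hj : j ≤ h) :
    (∑ a ∈ A, x ^ a) ^ j ≤ (j.factorial : ℝ) * That A j x M := by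
  induction j with
  | zero =>
    have h0 : 0 < M := by omega
    have : That A 0 x M = 1 := by
      unfold That
      rw [Finset.sum_eq_single 0]
      · simp [cnt_zero]
      · intro n _ hn
        simp [cnt_zero, hn]
      · intro hn
        exact absurd (Finset.mem_range.2 h0) hn
    rw [this]
    simp
  | succ j ih =>
    have h1 := ih (by omega)
    have h2 := S_mul_That_le (fun m hm => sum_lt hA hM (by omega) hm)
      (fun m hm => sum_lt hA hM hj hm) hx (A := A) (j := j) (M := M)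
    calc (∑ a ∈ A, x ^ a) ^ (j + 1) = (∑ a ∈ A, x ^ a) * (∑ a ∈ A, x ^ a) ^ j := by ring
      _ ≤ (∑ a ∈ A, x ^ a) * ((j.factorial : ℝ) * That A j x M) :=
          mul_le_mul_of_nonneg_left h1 (S_nonneg A hx)
      _ = (j.factorial : ℝ) * ((∑ a ∈ A, x ^ a) * That A j x M) := by ring
      _ ≤ (j.factorial : ℝ) * (((j + 1 : ℕ) : ℝ) * That A (j + 1) x M) :=
          mul_le_mul_of_nonneg_left h2 (by positivity)
      _ = (((j + 1).factorial : ℕ) : ℝ) * That A (j + 1) x M := by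
          rw [Nat.factorial_succ]
          push_cast
          ring

/-- `∑ r_j(n) x^n ≤ S^j`. -/
lemma sum_Ms_le_pow (A : Finset ℕ) (j : ℕ) {x : ℝ} (hx : 0 ≤ x) :
    ∑ m ∈ Ms A j, x ^ m.sum ≤ (∑ a ∈ A, x ^ a) ^ j := by
  rw [sum_pow_Ms]
  refine Finset.sum_le_sum (fun m _ => ?_)
  have h1 : (1 : ℝ) ≤ (m.countPerms : ℝ) := by exact_mod_cast countPerms_pos m
  have h2 : 0 ≤ x ^ m.sum := pow_nonneg hx _
  nlinarith

/-- Lemma C: the multisets with a repeated element have small total weight. -/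
lemma sum_not_nodup_le (A : Finset ℕ) (j : ℕ) {x : ℝ} (hx : 0 ≤ x) (hx1 : x ≤ 1) :
    ∑ m ∈ (Ms A (j + 1)).filter (fun m => ¬ m.Nodup), x ^ m.sum ≤ (∑ a ∈ A, x ^ a) ^ j := by
  rcases j with _ | j
  · have : (Ms A (0 + 1)).filter (fun m => ¬ m.Nodup) = ∅ := by
      apply Finset.filter_eq_empty_iff.2
      intro m hm
      have h1 := (mem_Ms.1 hm).1
      obtain ⟨a, rfl⟩ := Multiset.card_eq_one.1 h1
      simp
    rw [this]
    simp
  · have key := sum_le_sum_comp (A ×ˢ Ms A j) ((Ms A (j + 1 + 1)).filter (fun m => ¬ m.Nodup))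
      (fun y => y.1 ::ₘ y.1 ::ₘ y.2) ?_ (fun m => x ^ m.sum) (fun m => pow_nonneg hx _)
    · refine le_trans key ?_
      calc ∑ y ∈ A ×ˢ Ms A j, x ^ (y.1 ::ₘ y.1 ::ₘ y.2).sum
          ≤ ∑ y ∈ A ×ˢ Ms A j, x ^ y.1 * x ^ y.2.sum := by
            refine Finset.sum_le_sum (fun y _ => ?_)
            rw [← pow_add]
            refine pow_le_pow_of_le_one hx hx1 ?_
            simp only [Multiset.sum_cons]
            omega
        _ = (∑ a ∈ A, x ^ a) * ∑ m ∈ Ms A j, x ^ m.sum := by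
            rw [Finset.sum_mul_sum, ← Finset.sum_product']
        _ ≤ (∑ a ∈ A, x ^ a) * (∑ a ∈ A, x ^ a) ^ j :=
            mul_le_mul_of_nonneg_left (sum_Ms_le_pow A j hx) (S_nonneg A hx)
        _ = _ := by ring
    · intro m hm
      have h1 := Finset.mem_filter.1 hm
      have h2 := mem_Ms.1 h1.1
      have h3 : ∃ a, 1 < m.count a := by
        by_contra hcon
        push Not at hcon
        exact h1.2 (Multiset.nodup_iff_count_le_one.2 hcon)
      obtain ⟨a, ha⟩ := h3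
      have h4 : Multiset.replicate 2 a ≤ m := Multiset.le_count_iff_replicate_le.1 ha
      obtain ⟨k, hk⟩ := Multiset.le_iff_exists_add.1 h4
      have h5 : m = a ::ₘ a ::ₘ k := by
        rw [hk, show (2 : ℕ) = 0 + 1 + 1 from rfl, Multiset.replicate_succ,
          Multiset.replicate_succ, Multiset.replicate_zero, Multiset.cons_add,
          Multiset.cons_add, zero_add]
      refine ⟨(a, k), ?_, h5.symm⟩
      rw [h5] at h2
      simp only [Multiset.card_cons] at h2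
      rw [Finset.mem_product, mem_Ms]
      have h6 : Multiset.card k = j := by omega
      refine ⟨h2.2 a (Multiset.mem_cons_self _ _), h6, ?_⟩
      intro b hb
      exact h2.2 b (Multiset.mem_cons_of_mem (Multiset.mem_cons_of_mem hb))

/-- Lemma C in counting form. -/
lemma sum_ecnt_le {A : Finset ℕ} {j M : ℕ} (hM : ∀ m ∈ Ms A (j + 1), m.sum < M)
    {x : ℝ} (hx : 0 ≤ x) (hx1 : x ≤ 1) :
    ∑ n ∈ range M, (ecnt A (j + 1) n : ℝ) * x ^ n ≤ (∑ a ∈ A, x ^ a) ^ j := by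
  refine le_trans (le_of_eq ?_) (sum_not_nodup_le A j hx hx1)
  rw [← Finset.sum_fiberwise_of_maps_to (s := (Ms A (j + 1)).filter (fun m => ¬ m.Nodup))
    (t := range M) (g := fun m => m.sum)]
  · refine Finset.sum_congr rfl (fun n _ => ?_)
    rw [Finset.sum_congr rfl (g := fun _ => x ^ n)
      (fun i hi => by rw [(Finset.mem_filter.1 hi).2])]
    rw [Finset.sum_const, nsmul_eq_mul]
    congr 2
    unfold ecnt
    rw [Finset.filter_filter, Finset.filter_filter]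
    simp only [and_comm]
  · intro m hm
    exact Finset.mem_range.2 (hM _ (Finset.mem_filter.1 hm).1)

/-- `∑ r_j(n) x^n` in counting form. -/
lemma sum_cnt_eq {A : Finset ℕ} {j M : ℕ} (hM : ∀ m ∈ Ms A j, m.sum < M) (x : ℝ) :
    ∑ n ∈ range M, (cnt A j n : ℝ) * x ^ n = ∑ m ∈ Ms A j, x ^ m.sum := by
  rw [sum_Ms_fiber hM]
  refine Finset.sum_congr rfl (fun n _ => ?_)
  rw [Finset.sum_congr rfl (g := fun _ => x ^ n)
    (fun i hi => by rw [(Finset.mem_filter.1 hi).2])]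
  rw [Finset.sum_const, nsmul_eq_mul]
  rfl

/-- upper bound for the first moment of `r`. -/
lemma sum_cnt_le {A : Finset ℕ} {j M : ℕ} (hM : ∀ m ∈ Ms A (j + 1), m.sum < M)
    {x : ℝ} (hx : 0 ≤ x) (hx1 : x ≤ 1) :
    ((j + 1).factorial : ℝ) * ∑ n ∈ range M, (cnt A (j + 1) n : ℝ) * x ^ n ≤
      (∑ a ∈ A, x ^ a) ^ (j + 1) + ((j + 1).factorial : ℝ) * (∑ a ∈ A, x ^ a) ^ j := by
  have h1 : ((j + 1).factorial : ℝ) * ∑ n ∈ range M, (dcnt A (j + 1) n : ℝ) * x ^ n ≤
      (∑ a ∈ A, x ^ a) ^ (j + 1) := by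
    rw [sum_pow_RR hM, Finset.mul_sum]
    refine Finset.sum_le_sum (fun n _ => ?_)
    have h2 : (((j + 1).factorial * dcnt A (j + 1) n : ℕ) : ℝ) ≤ (RR A (j + 1) n : ℝ) := by
      exact_mod_cast le_RR A (j + 1) n
    push_cast at h2
    have h3 : 0 ≤ x ^ n := pow_nonneg hx _
    nlinarith
  have h4 := sum_ecnt_le hM hx hx1
  have h5 : ∑ n ∈ range M, (cnt A (j + 1) n : ℝ) * x ^ n =
      ∑ n ∈ range M, (dcnt A (j + 1) n : ℝ) * x ^ n +
      ∑ n ∈ range M, (ecnt A (j + 1) n : ℝ) * x ^ n := by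
    rw [← Finset.sum_add_distrib]
    refine Finset.sum_congr rfl (fun n _ => ?_)
    rw [← dcnt_add_ecnt]
    push_cast
    ring
  rw [h5, mul_add]
  have h6 : (0 : ℝ) ≤ ((j + 1).factorial : ℝ) := by positivity
  have := mul_le_mul_of_nonneg_left h4 h6
  linarith

/-- lower bound for the first moment of `r`. -/
lemma le_sum_cnt {A : Finset ℕ} {j M : ℕ} (hM : ∀ m ∈ Ms A j, m.sum < M)
    {x : ℝ} (hx : 0 ≤ x) :
    (∑ a ∈ A, x ^ a) ^ j ≤ (j.factorial : ℝ) * ∑ n ∈ range M, (cnt A j n : ℝ) * x ^ n := by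
  rw [sum_pow_RR hM, Finset.mul_sum]
  refine Finset.sum_le_sum (fun n _ => ?_)
  have h2 : (RR A j n : ℝ) ≤ ((j.factorial * cnt A j n : ℕ) : ℝ) := by
    exact_mod_cast RR_le A j n
  push_cast at h2
  have h3 : 0 ≤ x ^ n := pow_nonneg hx _
  nlinarith

/-- The weighted second moment of ordered representations. -/
noncomputable def EE (A : Finset ℕ) (j : ℕ) (x : ℝ) (M : ℕ) : ℝ :=
  ∑ n ∈ range M, ((RR A j n : ℝ)) ^ 2 * x ^ n

lemma EE_nonneg (A : Finset ℕ) (j : ℕ) {x : ℝ} (hx : 0 ≤ x) (M : ℕ) : 0 ≤ EE A j x M :=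
  Finset.sum_nonneg (fun _ _ => mul_nonneg (sq_nonneg _) (pow_nonneg hx _))

lemma EE_le_That (A : Finset ℕ) (j : ℕ) {x : ℝ} (hx : 0 ≤ x) (M : ℕ) :
    EE A j x M ≤ (j.factorial : ℝ) ^ 2 * That A j x M := by
  unfold EE That
  rw [Finset.mul_sum]
  refine Finset.sum_le_sum (fun n _ => ?_)
  have h2 : (RR A j n : ℝ) ≤ ((j.factorial * cnt A j n : ℕ) : ℝ) := by
    exact_mod_cast RR_le A j n
  push_cast at h2
  have h3 : 0 ≤ x ^ n := pow_nonneg hx _
  have h4 : (RR A j n : ℝ) ^ 2 ≤ ((j.factorial : ℝ) * cnt A j n) ^ 2 := by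
    gcongr
  calc (RR A j n : ℝ) ^ 2 * x ^ n ≤ ((j.factorial : ℝ) * cnt A j n) ^ 2 * x ^ n :=
        mul_le_mul_of_nonneg_right h4 h3
    _ = _ := by ring

/-- `E_{j+1} ≥ ((j+1)!)² (T_{j+1} - 2 B S^j)` if `r_{j+1} ≤ B`. -/
lemma le_EE {A : Finset ℕ} {j M : ℕ} (hM : ∀ m ∈ Ms A (j + 1), m.sum < M)
    {x : ℝ} (hx : 0 ≤ x) (hx1 : x ≤ 1) {B : ℕ} (hB : ∀ n, cnt A (j + 1) n ≤ B) :
    ((j + 1).factorial : ℝ) ^ 2 * (That A (j + 1) x M - 2 * B * (∑ a ∈ A, x ^ a) ^ j) ≤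
      EE A (j + 1) x M := by
  have h1 := sum_ecnt_le hM hx hx1
  have hB0 : (0 : ℝ) ≤ 2 * B := by positivity
  have h2 := mul_le_mul_of_nonneg_left h1 hB0
  calc ((j + 1).factorial : ℝ) ^ 2 * (That A (j + 1) x M - 2 * B * (∑ a ∈ A, x ^ a) ^ j)
      ≤ ((j + 1).factorial : ℝ) ^ 2 * (That A (j + 1) x M -
          2 * B * ∑ n ∈ range M, (ecnt A (j + 1) n : ℝ) * x ^ n) := by
        refine mul_le_mul_of_nonneg_left ?_ (by positivity)
        linarith
    _ ≤ ((j + 1).factorial : ℝ) ^ 2 * ∑ n ∈ range M, (dcnt A (j + 1) n : ℝ) ^ 2 * x ^ n := by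
        refine mul_le_mul_of_nonneg_left ?_ (by positivity)
        unfold That
        rw [Finset.mul_sum, ← Finset.sum_sub_distrib]
        refine Finset.sum_le_sum (fun n _ => ?_)
        have h3 : (cnt A (j + 1) n : ℝ) = dcnt A (j + 1) n + ecnt A (j + 1) n := by
          exact_mod_cast (dcnt_add_ecnt A (j + 1) n).symm
        have h4 : (cnt A (j + 1) n : ℝ) ≤ B := by exact_mod_cast hB n
        have h5 : 0 ≤ x ^ n := pow_nonneg hx _
        have h6 : (0 : ℝ) ≤ ecnt A (j + 1) n := by positivity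
        have h7 : (0 : ℝ) ≤ dcnt A (j + 1) n := by positivity
        have h8 : (cnt A (j + 1) n : ℝ) ^ 2 - 2 * B * ecnt A (j + 1) n ≤
            (dcnt A (j + 1) n : ℝ) ^ 2 := by
          rw [h3] at h4 ⊢
          nlinarith
        nlinarith
    _ ≤ EE A (j + 1) x M := by
        unfold EE
        rw [Finset.mul_sum]
        refine Finset.sum_le_sum (fun n _ => ?_)
        have h2 : (((j + 1).factorial * dcnt A (j + 1) n : ℕ) : ℝ) ≤ (RR A (j + 1) n : ℝ) := by
          exact_mod_cast le_RR A (j + 1) n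
        push_cast at h2
        have h5 : 0 ≤ x ^ n := pow_nonneg hx _
        have h4 : (((j + 1).factorial : ℝ) * dcnt A (j + 1) n) ^ 2 ≤ (RR A (j + 1) n : ℝ) ^ 2 := by
          gcongr
        calc ((j + 1).factorial : ℝ) ^ 2 * ((dcnt A (j + 1) n : ℝ) ^ 2 * x ^ n)
            = (((j + 1).factorial : ℝ) * dcnt A (j + 1) n) ^ 2 * x ^ n := by ring
          _ ≤ _ := mul_le_mul_of_nonneg_right h4 h5

end Pool.Agent.V7H13.ET
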